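import Pool.Agent.H.MP_32de40_an.B

set_option autoImplicit false
open Filter Topology Metric Set Complex ComplexConjugate
open Pool.Agent.H.MP_32de40_an

namespace Pool.Agent.H.MP_a5725d_an

noncomputable def q (φ : ℂ → ℂ) (ζ : ℂ) (r : ℝ) : ℝ := (1 - ‖φ (r * ζ)‖) / (1 - r)

def Jul (φ : ℂ → ℂ) (ζ ω : ℂ) (d : ℝ) : Prop := ‖ω‖ = 1 ∧ ∀ z : ℂ, ‖z‖ < 1 →
  ‖ω - φ z‖ ^ 2 * (1 - ‖z‖ ^ 2) ≤ d * (1 - ‖φ z‖ ^ 2) * ‖ζ - z‖ ^ 2

variable {φ : ℂ → ℂ} {ζ ω : ℂ} {d : ℝ}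

lemma nc {a w : ℂ} (hw : ‖w‖ = 1) : ‖1 - conj a * w‖ = ‖w - a‖ := by
  have h1 : conj w * w = 1 := by rw [conj_mul', hw]; simp
  rw [show 1 - conj a * w = conj (w - a) * w by rw [map_sub]; linear_combination -h1, norm_mul,
    norm_conj, hw, mul_one]

lemma tid : Tendsto (fun r : ℝ => r) (𝓝[<] 1) (𝓝 1) := tendsto_id.mono_left nhdsWithin_le_nhds

lemma nlim (hζ : ‖ζ‖ = 1) {l : Filter ℝ} (hl : l ≤ 𝓝[<] 1) (h : Tendsto (q φ ζ) l (𝓝 d)) :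
    Tendsto (fun r : ℝ => ‖φ (r * ζ)‖) l (𝓝 1) := by
  have := (h.mul ((tid.mono_left hl).const_sub 1)).const_sub 1
  rw [sub_self, mul_zero, sub_zero] at this
  refine this.congr' (hl ((rad hζ one_pos).mono fun r hr => ?_))
  have := sub_pos.2 hr.1.2
  simp only [q, mem_setOf_eq]
  field_simp
  ring

lemma jul (hd : DifferentiableOn ℂ φ (ball 0 1)) (hm : ∀ z : ℂ, ‖z‖ < 1 → ‖φ z‖ < 1)
    (hζ : ‖ζ‖ = 1) {l : Filter ℝ} [l.NeBot] (hl : l ≤ 𝓝[<] 1) (h : Tendsto (q φ ζ) l (𝓝 d))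
    (h' : Tendsto (fun r : ℝ => φ (r * ζ)) l (𝓝 ω)) : Jul φ ζ ω d := by
  have n1 := nlim hζ hl h
  have n2 : ‖ω‖ = 1 := tendsto_nhds_unique h'.norm n1
  refine ⟨n2, fun z hz => ?_⟩
  have t1 := (((h'.const_mul (conj (φ z))).const_sub 1).norm.pow 2).mul
    (((tid.mono_left hl).const_add 1).const_mul (1 - ‖z‖ ^ 2))
  have t2 := ((h.mul (n1.const_add 1)).const_mul (1 - ‖φ z‖ ^ 2)).mul
    (((((radt ζ).mono_left hl).const_mul (conj z)).const_sub 1).norm.pow 2)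
  have := le_of_tendsto_of_tendsto t1 t2 (hl ((rad hζ one_pos).mono fun r hr => ?_))
  · rw [nc n2, nc hζ] at this
    linarith
  obtain ⟨⟨r0, r1⟩, e, m⟩ := hr
  have w1 := mem_ball_zero_iff.mp m.2
  have b1 := pow_le_pow_left₀ (norm_nonneg _)
    (pick hd (fun z hz => (hm z (mem_ball_zero_iff.1 hz)).le) hz w1 (hm z hz)) 2
  have b2 := mid2 hz w1.le
  have b3 := mid2 (hm z hz) (hm _ w1).le
  have q0 := pow_pos (norm_pos_iff.mpr (mne hz w1.le)) 2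
  have q1 := pow_pos (norm_pos_iff.mpr (mne (hm z hz) (hm _ w1).le)) 2
  have b4 : (1 - ‖z‖ ^ 2) * (1 - ‖r * ζ‖ ^ 2) / ‖1 - conj z * (r * ζ)‖ ^ 2 ≤
    (1 - ‖φ z‖ ^ 2) * (1 - ‖φ (r * ζ)‖ ^ 2) / ‖1 - conj (φ z) * φ (r * ζ)‖ ^ 2 := by linarith
  rw [div_le_div_iff₀ q0 q1, e] at b4
  have r2 := sub_pos.2 r1
  simp only [mem_setOf_eq, q]
  rw [div_mul_eq_mul_div, ← mul_div_assoc, div_mul_eq_mul_div, le_div_iff₀ r2]
  linarith

lemma Jul.q_le (hm : ∀ z : ℂ, ‖z‖ < 1 → ‖φ z‖ < 1) (hζ : ‖ζ‖ = 1) (h : Jul φ ζ ω d) {r : ℝ}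
    (r0 : 0 < r) (r1 : r < 1) : q φ ζ r * (1 + r) ≤ d * (1 + ‖φ (r * ζ)‖) := by
  have e : ‖r * ζ‖ = r := by rw [norm_mul, hζ, mul_one, norm_real, Real.norm_of_nonneg r0.le]
  have e2 : ‖ζ - r * ζ‖ = 1 - r := by
    rw [← one_sub_mul, norm_mul, hζ, mul_one, ← ofReal_one, ← ofReal_sub, norm_real,
      Real.norm_of_nonneg (by linarith)]
  have h1 := h.2 _ (e.trans_lt r1)
  have h2 := norm_sub_norm_le ω (φ (r * ζ))
  have h3 := sub_pos.2 (hm _ (e.trans_lt r1))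
  rw [h.1] at h2
  rw [e, e2] at h1
  have h4 := pow_le_pow_left₀ h3.le h2 2
  have r2 := sub_pos.2 r1
  rw [q, div_mul_eq_mul_div, div_le_iff₀ r2]
  refine le_of_mul_le_mul_left ?_ (mul_pos h3 r2)
  nlinarith [mul_le_mul_of_nonneg_right h4 (show 0 ≤ 1 - r ^ 2 by nlinarith)]

lemma q_pos (hm : ∀ z : ℂ, ‖z‖ < 1 → ‖φ z‖ < 1) (hζ : ‖ζ‖ = 1) :
    ∀ᶠ r in 𝓝[<] 1, 0 < q φ ζ r := (rad hζ one_pos).mono fun r hr =>
  div_pos (sub_pos.2 (hm _ (mem_ball_zero_iff.1 hr.2.2.2))) (sub_pos.2 hr.1.2)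

lemma step (hd : DifferentiableOn ℂ φ (ball 0 1)) (hm : ∀ z : ℂ, ‖z‖ < 1 → ‖φ z‖ < 1)
    (hζ : ‖ζ‖ = 1) {B : ℝ} (h : ∃ᶠ r in 𝓝[<] 1, q φ ζ r ≤ B) : ∃ d ≤ B, ∃ ω, Jul φ ζ ω d ∧
      (∀ c < d, ∃ᶠ r in 𝓝[<] 1, c < q φ ζ r) ∧ ∀ c > d, ∀ᶠ r in 𝓝[<] 1, q φ ζ r < c := by
  have := frequently_iff_neBot.1 h
  obtain ⟨U, hU⟩ := Ultrafilter.exists_le (𝓝[<] (1 : ℝ) ⊓ 𝓟 {r | q φ ζ r ≤ B})
  have h1 : (U : Filter ℝ) ≤ 𝓝[<] 1 := hU.trans inf_le_left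
  obtain ⟨d, hd1, hd2⟩ := (isCompact_Icc (a := (0 : ℝ)) (b := B)).ultrafilter_le_nhds'
    (U.map (q φ ζ)) (by
      rw [Ultrafilter.mem_map]
      filter_upwards [h1 (q_pos hm hζ), (hU.trans inf_le_right) (mem_principal_self _)] with r a b
      exact ⟨a.le, b⟩)
  obtain ⟨ω, -, hω⟩ := (isCompact_closedBall (0 : ℂ) 1).ultrafilter_le_nhds'
    (U.map fun r : ℝ => φ (r * ζ)) (by
      rw [Ultrafilter.mem_map]
      filter_upwards [h1 (rad hζ one_pos)] with r a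
      exact mem_closedBall_zero_iff.2 (hm _ (mem_ball_zero_iff.1 a.2.2.2)).le)
  have J := jul hd hm hζ h1 hd2 hω
  refine ⟨d, hd1.2, ω, J, fun c hc => ?_, fun c hc => ?_⟩
  · exact ((show Tendsto (q φ ζ) U (𝓝 d) from hd2).eventually (lt_mem_nhds hc)).frequently.filter_mono h1
  · have t := (tid.const_add 1).const_mul c
    filter_upwards [t.eventually (lt_mem_nhds (show d * 2 < c * (1 + 1) by linarith)),
      rad hζ one_pos] with r a b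
    have h2 := J.q_le hm hζ b.1.1 b.1.2
    have h3 := hm _ (mem_ball_zero_iff.1 b.2.2.2)
    exact lt_of_mul_lt_mul_right (a := 1 + r) (by nlinarith [hd1.1]) (by linarith [b.1.1])

lemma dich (hd : DifferentiableOn ℂ φ (ball 0 1)) (hm : ∀ z : ℂ, ‖z‖ < 1 → ‖φ z‖ < 1)
    (hζ : ‖ζ‖ = 1) : Tendsto (q φ ζ) (𝓝[<] 1) atTop ∨
      ∃ d ω, Jul φ ζ ω d ∧ Tendsto (q φ ζ) (𝓝[<] 1) (𝓝 d) := by
  refine or_iff_not_imp_left.2 fun h => ?_
  rw [Filter.tendsto_atTop, not_forall] at h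
  obtain ⟨B, hB⟩ := h
  obtain ⟨d, -, ω, J, h1, h2⟩ := step hd hm hζ (B := B) ((not_eventually.1 hB).mono fun r hr =>
    (not_le.1 hr).le)
  refine ⟨d, ω, J, tendsto_order.2 ⟨fun c hc => by_contra fun h3 => ?_, h2⟩⟩
  obtain ⟨d', h4, -, -, -, h5⟩ := step hd hm hζ (B := c) ((not_eventually.1 h3).mono fun r hr =>
    not_lt.1 hr)
  obtain ⟨r, a, b⟩ := ((h1 ((d' + d) / 2) (by linarith)).and_eventually
    (h5 ((d' + d) / 2) (by linarith))).exists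
  linarith

lemma hp {F : ℂ → ℂ} (hd : DifferentiableOn ℂ F (ball 0 1)) (h0 : ∀ z : ℂ, ‖z‖ < 1 → 0 ≤ (F z).re)
    {a w : ℂ} (ha : ‖a‖ < 1) (hw : ‖w‖ < 1) (h : ‖(w - a) / (1 - conj a * w)‖ ≤ 127 / 128) :
    ‖F w‖ ≤ 255 * ‖F a‖ + 127 := by
  have n0 : ∀ z : ℂ, ‖z‖ < 1 → F z + conj (F a) + 1 ≠ 0 := fun z hz e => by
    have := congrArg re e
    simp only [add_re, conj_re, one_re, zero_re] at this
    linarith [h0 z hz, h0 a ha]
  have := pick (Θ := fun u => (F u - F a) / (F u + conj (F a) + 1))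
    ((hd.sub_const _).div ((hd.add_const _).add_const _) fun z hz => n0 z (mem_ball_zero_iff.1 hz))
    (fun z hz => by
      rw [mem_ball_zero_iff] at hz
      rw [norm_div, div_le_one (norm_pos_iff.2 (n0 z hz)), ← sq_le_sq₀ (norm_nonneg _) (norm_nonneg _),
        Complex.sq_norm, Complex.sq_norm, normSq_apply, normSq_apply]
      simp only [sub_re, sub_im, add_re, add_im, conj_re, conj_im, one_re, one_im]
      nlinarith [h0 z hz, h0 a ha, mul_nonneg (h0 z hz) (h0 a ha)]) ha hw (by simp)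
  simp only [sub_self, zero_div, sub_zero, map_zero, zero_mul, div_one] at this
  have h2 := this.trans h
  rw [norm_div, div_le_iff₀ (norm_pos_iff.2 (n0 w hw))] at h2
  have h3 : ‖F w + conj (F a) + 1‖ ≤ ‖F w - F a‖ + 2 * ‖F a‖ + 1 := by
    rw [show F w + conj (F a) + 1 = (F w - F a) + F a + conj (F a) + 1 by ring]
    have := norm_add_le (F w - F a + F a + conj (F a)) 1
    have := norm_add_le (F w - F a + F a) (conj (F a))
    have := norm_add_le (F w - F a) (F a)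
    simp only [norm_one, norm_conj] at *
    linarith
  linarith [norm_le_insert' (F w) (F a)]

lemma re_h {a w : ℂ} (hw : ‖w‖ = 1) : ((w + a) / (w - a)).re = (1 - ‖a‖ ^ 2) / ‖w - a‖ ^ 2 := by
  have : w.re * w.re + w.im * w.im = 1 := by rw [← normSq_apply, ← Complex.sq_norm, hw]; simp
  rw [div_re, Complex.sq_norm, Complex.sq_norm, ← add_div, normSq_apply a]
  congr 1
  simp only [add_re, sub_re, add_im, sub_im]
  linarith

lemma nt (hd : DifferentiableOn ℂ φ (ball 0 1)) (hm : ∀ z : ℂ, ‖z‖ < 1 → ‖φ z‖ < 1)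
    (hζ : ‖ζ‖ = 1) (J : Jul φ ζ ω 1) (h : Tendsto (q φ ζ) (𝓝[<] 1) (𝓝 1)) {ε : ℝ} (hε : 0 < ε) :
    ∃ δ > 0, ∀ w : ℂ, ‖w‖ < 1 → ‖w - ζ‖ ≤ 7 * (1 - ‖w‖) → 1 - ‖w‖ < δ →
      ‖ζ * φ w - ω * w‖ ≤ ε * (1 - ‖w‖) := by
  have n1 : ∀ {x z : ℂ}, ‖x‖ = 1 → ‖z‖ < 1 → x - z ≠ 0 := fun hx hz e => by
    rw [sub_eq_zero.1 e] at hx; linarith
  set F : ℂ → ℂ := fun w => (ω + φ w) / (ω - φ w) - (ζ + w) / (ζ - w) with hF
  have F1 : DifferentiableOn ℂ F (ball 0 1) :=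
    ((hd.const_add _).div (hd.const_sub _) fun z hz => n1 J.1 (hm z (mem_ball_zero_iff.1 hz))).sub
      (DifferentiableOn.div (by fun_prop) (by fun_prop) fun z hz => n1 hζ (mem_ball_zero_iff.1 hz))
  have F2 : ∀ z : ℂ, ‖z‖ < 1 → 0 ≤ (F z).re := fun z hz => by
    have := J.2 z hz
    rw [hF, sub_re, re_h J.1, re_h hζ, sub_nonneg, div_le_div_iff₀
      (pow_pos (norm_pos_iff.2 (n1 hζ hz)) 2) (pow_pos (norm_pos_iff.2 (n1 J.1 (hm z hz))) 2)]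
    linarith
  have F3 : ∀ z : ℂ, ‖z‖ < 1 → 2 * ‖ζ * φ z - ω * z‖ = ‖F z‖ * (‖ω - φ z‖ * ‖ζ - z‖) := fun z hz => by
    have a := n1 hζ hz
    have b := n1 J.1 (hm z hz)
    rw [← norm_mul, ← norm_mul, show F z * ((ω - φ z) * (ζ - z)) = 2 * (ζ * φ z - ω * z) by
      simp only [hF]; field_simp; ring, norm_mul, Complex.norm_two]
  have n2 := nlim hζ le_rfl h
  have t1 : Tendsto (fun r : ℝ => (1 - r) * ‖F (r * ζ)‖) (𝓝[<] 1) (𝓝 0) := by
    have t := ((((h.mul (n2.const_add 1)).div (tid.const_add 1) (by norm_num)).const_sub 1).const_mul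
      4).div (h.pow 2) (by norm_num)
    rw [show 4 * (1 - (1 : ℝ) * (1 + 1) / (1 + 1)) / 1 ^ 2 = 0 by norm_num] at t
    refine squeeze_zero' ((rad hζ one_pos).mono fun r hr => mul_nonneg (sub_pos.2 hr.1.2).le
      (norm_nonneg _)) ((rad hζ one_pos).mono fun r hr => Real.le_sqrt_of_sq_le ?_)
      (by simpa using t.sqrt)
    obtain ⟨⟨r0, r1⟩, e, m⟩ := hr
    have w1 := mem_ball_zero_iff.mp m.2
    have e2 : ‖ζ - r * ζ‖ = 1 - r := by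
      rw [← one_sub_mul, norm_mul, hζ, mul_one, ← ofReal_one, ← ofReal_sub, norm_real,
        Real.norm_of_nonneg (by linarith)]
    have a1 := F3 _ w1
    have a2 := J.2 _ w1
    have a3 := norm_sub_norm_le ω (φ (r * ζ))
    have a4 := sub_pos.2 (hm _ w1)
    have r2 := sub_pos.2 r1
    rw [e2, show ζ * φ (r * ζ) - ω * (r * ζ) = ζ * (φ (r * ζ) - r * ω) by ring, norm_mul, hζ,
      one_mul] at a1
    rw [e, e2] at a2
    rw [J.1] at a3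
    have a5 : ‖φ (r * ζ) - r * ω‖ ^ 2 = r * ‖ω - φ (r * ζ)‖ ^ 2 + (1 - r) * (‖φ (r * ζ)‖ ^ 2 - r) := by
      have : ω.re * ω.re + ω.im * ω.im = 1 := by rw [← normSq_apply, ← Complex.sq_norm, J.1]; simp
      simp only [Complex.sq_norm, normSq_apply, sub_re, sub_im, mul_re, mul_im, ofReal_re, ofReal_im]
      linear_combination (r ^ 2 - r) * this
    simp only [Pi.div_apply, q]
    generalize ‖φ (r * ζ)‖ = y at *
    generalize ‖φ (r * ζ) - r * ω‖ = A at *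
    generalize ‖ω - φ (r * ζ)‖ = B at *
    have a6 : B ^ 2 ≤ (1 - y ^ 2) * (1 - r) / (1 + r) := by
      rw [le_div_iff₀ (by linarith)]
      exact le_of_mul_le_mul_right (by linarith) r2
    have a7 : ((1 - r) * ‖F (r * ζ)‖) ^ 2 * (1 - y) ^ 2 ≤ 4 * A ^ 2 := by
      rw [show 4 * A ^ 2 = (2 * A) ^ 2 by ring, a1, ← mul_pow]
      refine pow_le_pow_left₀ (by positivity) ?_ 2
      nlinarith [mul_le_mul_of_nonneg_left a3 (mul_nonneg (norm_nonneg (F (r * ζ))) r2.le)]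
    rw [le_div_iff₀ (by positivity), div_pow, ← mul_div_assoc, div_le_iff₀ (by positivity)]
    refine a7.trans ?_
    rw [a5]
    refine (mul_le_mul_of_nonneg_left (add_le_add_left (mul_le_mul_of_nonneg_left a6 r0.le) _)
      (by norm_num)).trans (le_of_eq ?_)
    field_simp
    ring
  have t2 := (t1.const_mul 255).add ((tid.const_sub 1).const_mul 127)
  rw [sub_self, mul_zero, mul_zero, add_zero] at t2
  obtain ⟨δ, d0, hδ⟩ := Metric.mem_nhdsWithin_iff.1 ((t2.eventually (gt_mem_nhds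
    (show 0 < ε / 343 by positivity))).and (rad hζ one_pos))
  refine ⟨δ, d0, fun w hw h1 h2 => ?_⟩
  have r2 := sub_pos.2 hw
  obtain ⟨a1, ⟨r0, -⟩, e, -⟩ := hδ (show ‖w‖ ∈ _ from ⟨by
    rwa [mem_ball, dist_comm, Real.dist_eq, abs_of_pos r2], hw⟩)
  have a2 := hp F1 F2 (e.trans_lt hw) hw (by
    have b1 := mid2 (e.trans_lt hw) hw.le
    have b2 := norm_pos_iff.2 (mne (e.trans_lt hw) hw.le)
    have b3 : ‖1 - conj (‖w‖ * ζ) * w‖ ≤ 8 * (1 - ‖w‖) := by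
      have c1 : conj ζ * ζ = 1 := by rw [conj_mul', hζ]; simp
      rw [show 1 - conj (‖w‖ * ζ) * w = conj ζ * ((1 - ‖w‖ : ℝ) * w - (w - ζ)) by
        rw [map_mul, conj_ofReal]; push_cast; linear_combination -c1, norm_mul, norm_conj, hζ, one_mul]
      refine (norm_sub_le _ _).trans ?_
      rw [norm_mul, norm_real, Real.norm_of_nonneg r2.le]
      nlinarith
    rw [e] at b1
    have b4 : 1 / 64 ≤ (1 - ‖w‖ ^ 2) * (1 - ‖w‖ ^ 2) / ‖1 - conj (‖w‖ * ζ) * w‖ ^ 2 := by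
      rw [le_div_iff₀ (by positivity)]
      have := pow_le_pow_left₀ b2.le b3 2
      have : 1 - ‖w‖ ≤ 1 - ‖w‖ ^ 2 := by nlinarith
      nlinarith
    exact le_of_sq_le_sq (by linarith) (by norm_num))
  have a3 := F3 w hw
  have a4 := J.2 w hw
  have a5 := norm_sub_norm_le ω (φ w)
  have a6 := norm_pos_iff.2 (n1 J.1 (hm w hw))
  rw [norm_sub_rev] at h1
  rw [J.1] at a5
  have a7 : ‖ω - φ w‖ ≤ 98 * (1 - ‖w‖) := by
    have b1 := pow_le_pow_left₀ (norm_nonneg _) h1 2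
    have b2 : 1 - ‖φ w‖ ^ 2 ≤ 2 * ‖ω - φ w‖ := by nlinarith [hm w hw]
    have b3 : ‖ω - φ w‖ ^ 2 * (1 - ‖w‖) ≤ ‖ω - φ w‖ ^ 2 * (1 - ‖w‖ ^ 2) := by
      gcongr; nlinarith
    have b4 := mul_le_mul b2 b1 (by positivity) (by positivity)
    exact le_of_mul_le_mul_left (by nlinarith) (mul_pos a6 r2)
  have a8 := mul_le_mul a2 (mul_le_mul a7 h1 (norm_nonneg _) (by positivity)) (by positivity)
    (by positivity)
  rw [lt_div_iff₀ (by norm_num)] at a1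
  nlinarith [mul_le_mul_of_nonneg_left a1.le r2.le]

lemma nt2 (hd : DifferentiableOn ℂ φ (ball 0 1)) (hm : ∀ z : ℂ, ‖z‖ < 1 → ‖φ z‖ < 1)
    (hζ : ‖ζ‖ = 1) (h : Tendsto (q φ ζ) (𝓝[<] 1) (𝓝 1)) {ε : ℝ} (hε : 0 < ε) :
    ∃ δ > 0, ∀ z : ℂ, ‖z‖ < 1 → ‖z - ζ‖ < 3 * (1 - ‖z‖) → 1 - ‖z‖ < δ →
      ‖z * deriv φ z - φ z‖ ≤ ε := by
  obtain h1 | ⟨d, ω, J, h1⟩ := dich hd hm hζ
  · exact (not_tendsto_atTop_of_tendsto_nhds h h1).elim
  obtain rfl := tendsto_nhds_unique h h1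
  obtain ⟨δ, d0, H⟩ := nt hd hm hζ J h (show 0 < ε / 4 by positivity)
  refine ⟨δ / 2, by positivity, fun z hz a1 a2 => ?_⟩
  have r2 := sub_pos.2 hz
  have m : closedBall z ((1 - ‖z‖) / 2) ⊆ ball 0 1 := fun w hw => by
    have := norm_sub_norm_le w z
    rw [mem_closedBall, dist_eq_norm] at hw
    exact mem_ball_zero_iff.2 (by linarith)
  have g1 : DifferentiableOn ℂ (fun w => ζ * φ w - ω * w) (ball 0 1) :=
    (hd.const_mul _).sub (by fun_prop)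
  have b1 := norm_deriv_le_of_forall_mem_sphere_norm_le (half_pos r2)
    (g1.diffContOnCl_ball m) (C := ε / 4 * (3 / 2 * (1 - ‖z‖))) fun w hw => by
      rw [mem_sphere, dist_eq_norm] at hw
      have c1 := norm_sub_norm_le w z
      have c2 := norm_sub_norm_le z w
      have c3 := norm_sub_le_norm_sub_add_norm_sub w z ζ
      rw [norm_sub_rev z w] at c2
      exact (H w (by linarith) (by linarith) (by linarith)).trans (by gcongr; linarith)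
  have b2 := (((hd.differentiableAt (isOpen_ball.mem_nhds (mem_ball_zero_iff.2 hz))).hasDerivAt.const_mul
    ζ).sub ((hasDerivAt_id z).const_mul ω)).deriv
  have b3 := H z hz (by linarith) (by linarith)
  rw [show (fun w => ζ * φ w - ω * w) = (fun y => ζ * φ y) - fun y => ω * id y from rfl, b2,
    show ε / 4 * (3 / 2 * (1 - ‖z‖)) / ((1 - ‖z‖) / 2) = 3 * (ε / 4) by field_simp] at b1
  have b4 := norm_sub_le (z * (ζ * deriv φ z - ω * 1)) (ζ * φ z - ω * z)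
  rw [show z * (ζ * deriv φ z - ω * 1) - (ζ * φ z - ω * z) = ζ * (z * deriv φ z - φ z) by ring,
    norm_mul, hζ, one_mul, norm_mul] at b4
  nlinarith [norm_nonneg z, mul_le_mul hz.le b1 (norm_nonneg _) zero_le_one]

end Pool.Agent.H.MP_a5725d_an
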