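import Pool.Agent.H.MP_496271_an.G

set_option autoImplicit false
namespace Pool.Agent.H.MP_a5725d_an
open MeasureTheory Metric Pool.Agent.H.MP_ceba03_an ComplexConjugate Filter Topology Set
open Pool.Agent.H.MP_e9aa5f_an Pool.Agent.H.MP_c4e2dd_an Pool.Agent.H.MP_535799_an Complex
open Pool.Agent.H.MP_496271_an

noncomputable def PK (z : ℂ) (t : T) : ℝ := (1 - ‖z‖ ^ 2) / ‖e t - z‖ ^ 2

noncomputable def hm (F : Set T) (z : ℂ) : ℝ := ∫ t in F, PK z t ∂μ

lemma e_ne {z : ℂ} (hz : ‖z‖ < 1) (t : T) : e t - z ≠ 0 := fun h => by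
  rw [← sub_eq_zero.1 h, e_norm] at hz; exact hz.false

lemma pk_int {z : ℂ} (hz : ‖z‖ < 1) : Integrable (PK z) μ :=
  cint' (continuous_const.div ((e_cont.sub continuous_const).norm.pow 2) fun t =>
    pow_ne_zero 2 (norm_ne_zero_iff.2 (e_ne hz t)))

lemma pk_nn {z : ℂ} (hz : ‖z‖ < 1) (t : T) : 0 ≤ PK z t :=
  div_nonneg (by nlinarith [norm_nonneg z]) (by positivity)

lemma pk_one {z : ℂ} (hz : ‖z‖ < 1) : ∫ t, PK z t ∂μ = 1 := by
  have h := pois one_hi (mem_ball_zero_iff.2 hz)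
  rw [pc_an (G := fun _ => 1) analyticOnNhd_const (mem_ball_zero_iff.2 hz)] at h
  simp only [one_mul, integral_complex_ofReal] at h
  exact_mod_cast h

lemma pk_re {z : ℂ} (hz : ‖z‖ < 1) (t : T) : (2 * kz z t - 1).re = PK z t := by
  have h1 := e_ne hz t
  have h2 : 2 * kz z t - 1 = (e t + z) / (e t - z) := by
    rw [eq_div_iff h1]
    linear_combination 2 * kz_eq (mem_ball_zero_iff.2 hz) t
  have : (e t).re * (e t).re + (e t).im * (e t).im = 1 := by
    rw [← normSq_apply, ← Complex.sq_norm, e_norm]; simp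
  rw [h2, PK, div_re, Complex.sq_norm, Complex.sq_norm, ← add_div, normSq_apply z]
  congr 1
  simp only [add_re, sub_re, add_im, sub_im]
  linarith

lemma hm_nn (F : Set T) {z : ℂ} (hz : ‖z‖ < 1) : 0 ≤ hm F z := integral_nonneg (pk_nn hz)

lemma hm_add {F : Set T} (hF : MeasurableSet F) {z : ℂ} (hz : ‖z‖ < 1) : hm F z + hm Fᶜ z = 1 :=
  (integral_add_compl hF (pk_int hz)).trans (pk_one hz)

lemma hm_le {F : Set T} (hF : MeasurableSet F) {z : ℂ} (hz : ‖z‖ < 1) : hm F z ≤ 1 := by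
  linarith [hm_add hF hz, hm_nn Fᶜ hz]

lemma her {F : Set T} (hF : MeasurableSet F) : ∃ H : ℂ → ℂ, DifferentiableOn ℂ H (ball 0 1) ∧
    ∀ z : ℂ, ‖z‖ < 1 → (H z).re = hm F z := by
  have h1 : Bd (F.indicator 1) 1 := ⟨aestronglyMeasurable_one.indicator hF, .of_forall fun t => by
    by_cases h : t ∈ F <;> simp [h]⟩
  refine ⟨fun z => 2 * Pc (F.indicator 1) z - μ.real F, ((pc_diff h1).const_mul _).sub_const _,
    fun z hz => ?_⟩
  obtain ⟨_, h2⟩ := bd_cont (kz_cont (mem_ball_zero_iff.2 hz))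
  have h3 : Pc (F.indicator 1) z = ∫ t in F, kz z t ∂μ := by
    rw [Pc, ← integral_indicator hF]
    congr 1; funext t
    by_cases h : t ∈ F <;> simp [h]
  have h4 := (h2.int.const_mul 2).integrableOn (s := F)
  have h5 := integral_sub h4 (integrable_const (1 : ℂ))
  rw [integral_const_mul, setIntegral_const, real_smul, mul_one] at h5
  simp only [h3, ← h5, hm, ← pk_re hz]
  exact (integral_re (h4.sub (integrable_const 1))).symm

lemma e_surj {ζ : ℂ} (h : ζ ∈ S) : ∃ x, e x = ζ :=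
  let ⟨x, hx⟩ := (AddCircle.homeomorphCircle (T := 1) one_ne_zero).surjective ⟨ζ, h⟩
  ⟨x, by rw [e, fourier_one, ← AddCircle.homeomorphCircle_apply one_ne_zero, hx]⟩

lemma e_lip (t x : T) : ‖e t - e x‖ ≤ 2 * Real.pi * dist t x := by
  have h0 : e t - e x = e x * (e (t - x) - 1) := by
    conv_lhs => rw [← sub_add_cancel t x, e_add]
    ring
  rw [h0, norm_mul, e_norm, one_mul, dist_eq_norm]
  obtain ⟨y, hy⟩ := QuotientAddGroup.mk_surjective (t - x)
  have h1 : ((y - round y : ℝ) : T) = t - x := by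
    rw [← hy, AddCircle.coe_sub, sub_eq_self]
    exact (AddCircle.coe_eq_zero_iff _).2 ⟨round y, by simp⟩
  have h2 := abs_sub_round y
  rw [← h1, (AddCircle.norm_coe_eq_abs_iff _ one_ne_zero).2 (by simpa using h2), e_coe]
  refine Real.norm_exp_I_mul_ofReal_sub_one_le.trans (le_of_eq ?_)
  rw [Real.norm_eq_abs, abs_mul, abs_of_pos Real.two_pi_pos]

lemma hv : (volume : Measure T) = μ := by simp [AddCircle.volume_eq_smul_haarAddCircle]

lemma lat {F : Set T} (hF : MeasurableSet F) {z : ℂ} (hz : ‖z‖ < 1)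
    (h : ∀ t ∈ F, 2 * (1 - ‖z‖) ≤ ‖z - e t‖) : hm F z ≤ 13 / 14 := by
  obtain ⟨ρ, ζ, r0, r1, hζ, rfl⟩ := polar (mem_ball_zero_iff.2 hz)
  obtain ⟨x, rfl⟩ := e_surj hζ
  have n1 : ‖ρ * e x‖ = ρ := by simp [e_norm, abs_of_nonneg r0]
  have r2 := sub_pos.2 r1
  have h1 : ∀ t ∈ closedBall x ((1 - ρ) / 7), ‖ρ * e x - e t‖ < 2 * (1 - ρ) := fun t ht => by
    have a1 := e_lip t x
    have a2 := norm_sub_le_norm_sub_add_norm_sub (e t) (e x) (ρ * e x)
    rw [← one_sub_mul, norm_mul, e_norm, mul_one, ← ofReal_one, ← ofReal_sub, norm_real,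
      Real.norm_of_nonneg r2.le, norm_sub_rev] at a2
    nlinarith [Real.pi_lt_d2, mem_closedBall.1 ht, dist_nonneg (x := t) (y := x), Real.pi_pos]
  have h2 : 1 / (4 * (1 - ρ)) * μ.real (closedBall x ((1 - ρ) / 7)) ≤
      hm (closedBall x ((1 - ρ) / 7)) (ρ * e x) :=
    setIntegral_ge_of_const_le_real measurableSet_closedBall (measure_ne_top _ _) (fun t ht => by
      have a1 := norm_pos_iff.2 (e_ne hz t)
      have a2 := h1 t ht
      rw [norm_sub_rev] at a2
      rw [PK, n1, div_le_div_iff₀ (by positivity) (by positivity)]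
      nlinarith [pow_le_pow_left₀ a1.le a2.le 2, mul_nonneg r0 (mul_pos r2 r2).le])
      (pk_int hz).integrableOn
  have h3 : hm (closedBall x ((1 - ρ) / 7)) (ρ * e x) ≤ hm Fᶜ (ρ * e x) :=
    setIntegral_mono_set (pk_int hz).integrableOn (.of_forall (pk_nn hz))
      (HasSubset.Subset.eventuallyLE fun t ht h4 => (h1 t ht).not_ge (by simpa only [n1] using h t h4))
  rw [← hv, Measure.real, AddCircle.volume_closedBall, min_eq_right (by linarith),
    ENNReal.toReal_ofReal (by positivity),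
    show 1 / (4 * (1 - ρ)) * (2 * ((1 - ρ) / 7)) = 1 / 14 by field_simp; norm_num] at h2
  linarith [hm_add hF hz]

lemma rn {r : ℝ} (hr : r ∈ Ioo (0 : ℝ) 1) (t : T) : ‖r * e t‖ = r := by
  simp [e_norm, abs_of_pos hr.1]

lemma near {F : Set T} (hF : IsClosed F) (h0 : μ F ≠ 0) :
    ∃ r ∈ Ioo (0 : ℝ) 1, ∃ t ∈ F, 13 / 14 < hm F (r * e t) := by
  by_contra! h
  have m := hF.measurableSet
  obtain ⟨H, H1, H2⟩ := her m
  have h1 : ∀ r ∈ Ioo (0 : ℝ) 1, Continuous fun t => hm F (r * e t) := fun r hr =>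
    (continuous_re.comp ((an_dil H1 hr).2.co.comp_continuous e_cont e_mem)).congr fun t =>
      H2 _ ((rn hr t).trans_lt hr.2)
  have h2 : ∀ r ∈ Ioo (0 : ℝ) 1, ∫ t, hm F (r * e t) ∂μ = μ.real F := fun r hr => by
    have a := congrArg re (mv0 (an_dil H1 hr).2)
    obtain ⟨_, b⟩ := hh_an (an_dil H1 hr).2
    have c := integral_re b.1.int
    simp only [RCLike.re_to_complex] at c
    rw [← c, H2 _ (by simp)] at a
    simp only [H2 _ ((rn hr _).trans_lt hr.2)] at a
    rw [a]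
    simp [hm, PK, e_norm]
  have h3 : Tendsto (fun r : ℝ => ∫ t in Fᶜ, hm F (r * e t) ∂μ) (𝓝[<] 1) (𝓝 (∫ _ in Fᶜ, 0 ∂μ)) := by
    refine tendsto_integral_filter_of_dominated_convergence (fun _ => 1)
      (mem_of_superset (Ioo_mem_nhdsLT one_pos) fun r hr => (h1 r hr).aestronglyMeasurable)
      (Eventually.mono (Ioo_mem_nhdsLT one_pos) fun r hr => Eventually.of_forall fun t => ?_)
      (integrable_const _) ((ae_restrict_mem m.compl).mono fun t ht => ?_)
    · have a := (rn hr t).trans_lt hr.2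
      rw [Real.norm_of_nonneg (hm_nn F a)]
      exact hm_le m a
    obtain ⟨δ, d0, hδ⟩ := Metric.isOpen_iff.1 hF.isOpen_compl t ht
    have t1 : Tendsto (fun r : ℝ => (1 - r ^ 2) / (δ / 2) ^ 2) (𝓝[<] 1) (𝓝 0) :=
      tendsto_nhdsWithin_of_tendsto_nhds (Continuous.tendsto' (by fun_prop) _ _ (by simp))
    refine squeeze_zero' (mem_of_superset (Ioo_mem_nhdsLT one_pos) fun r hr =>
      hm_nn F ((rn hr t).trans_lt hr.2)) ?_ t1
    filter_upwards [Ioo_mem_nhdsLT one_pos, Ioo_mem_nhdsLT (show 1 - δ / 2 < 1 by linarith)]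
      with r hr hr'
    have a := (rn hr t).trans_lt hr.2
    have p : 0 ≤ 1 - r ^ 2 := by nlinarith [hr.1, hr.2]
    refine (setIntegral_mono_on (pk_int a).integrableOn (integrable_const ((1 - r ^ 2) /
      (δ / 2) ^ 2)).integrableOn m fun s hs => ?_).trans ?_
    · have b1 : δ ≤ dist s t := not_lt.1 fun b => hδ b hs
      have b2 := dist_e s t
      have b3 := norm_sub_le_norm_sub_add_norm_sub (e s) (r * e t) (e t)
      rw [← sub_one_mul, norm_mul, e_norm, mul_one, ← ofReal_one, ← ofReal_sub, norm_real,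
        Real.norm_of_nonpos (sub_nonpos.2 hr.2.le)] at b3
      rw [show 1 - conj (e t) * e s = conj (e t) * -(e s - e t) by
        linear_combination -cj (e_mem t), norm_mul, norm_conj, e_norm, one_mul, norm_neg] at b2
      rw [PK, rn hr]
      gcongr
      linarith [hr'.1]
    · rw [setIntegral_const, smul_eq_mul]
      exact mul_le_of_le_one_left (by positivity) measureReal_le_one
  have h4 := ge_of_tendsto (h3.const_add (13 / 14 * μ.real F)) (b := μ.real F)
    (mem_of_superset (Ioo_mem_nhdsLT one_pos) fun r hr => by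
      have a := setIntegral_mono_on (cint' (h1 r hr)).integrableOn
        (integrable_const (13 / 14 : ℝ)).integrableOn m (h r hr)
      rw [setIntegral_const, smul_eq_mul] at a
      have b := integral_add_compl m (cint' (h1 r hr))
      rw [h2 r hr] at b
      simp only [mem_setOf_eq]
      linarith)
  have h5 : 0 < μ.real F := ENNReal.toReal_pos h0 (measure_ne_top _ _)
  rw [integral_zero] at h4
  linarith

def Sm (h : ℂ → ℂ) (ε δ : ℝ) (t : T) : Prop :=
  ∀ z : ℂ, ‖z‖ < 1 → ‖z - e t‖ < 3 * (1 - ‖z‖) → 1 - ‖z‖ < δ → ‖h z‖ ≤ ε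

lemma sm_closed (h : ℂ → ℂ) (ε δ : ℝ) : IsClosed {t | Sm h ε δ t} := by
  have : {t | Sm h ε δ t} = ⋂ z : ℂ, ⋂ _ : ‖z‖ < 1 ∧ 1 - ‖z‖ < δ ∧ ε < ‖h z‖,
      {t | 3 * (1 - ‖z‖) ≤ ‖z - e t‖} := by
    ext t
    simp only [Sm, mem_setOf_eq, mem_iInter]
    exact ⟨fun H z a => not_lt.1 fun b => (H z a.1 b a.2.1).not_gt a.2.2,
      fun H z a b c => not_lt.1 fun d => (H z ⟨a, c, d⟩).not_gt b⟩
  rw [this]
  exact isClosed_iInter fun z => isClosed_iInter fun _ =>
    isClosed_le continuous_const (continuous_const.sub e_cont).norm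

lemma ego {h : ℂ → ℂ} (H : μ {t | ∀ ε > 0, ∃ δ > 0, Sm h ε δ t} ≠ 0) :
    ∃ F, IsClosed F ∧ μ F ≠ 0 ∧ ∀ ε > 0, ∃ δ > 0, ∀ t ∈ F, Sm h ε δ t := by
  set B := {t | ∀ ε > 0, ∃ δ > 0, Sm h ε δ t}
  set A : ℕ → ℕ → Set T := fun k N => {t | Sm h (1 / (k + 1)) (1 / (N + 1)) t} with hA
  obtain ⟨η, η0, hη⟩ := ENNReal.exists_pos_sum_of_countable H ℕ
  have h1 : ∀ k, ∃ N, μ ((⋃ n, A k n) \ A k N) < η k := fun k => by
    have a := tendsto_measure_iInter_atTop (μ := μ) (s := fun N => (⋃ n, A k n) \ A k N)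
      (fun N => ((MeasurableSet.iUnion fun n => (sm_closed _ _ _).measurableSet).diff
        (sm_closed _ _ _).measurableSet).nullMeasurableSet)
      (fun N M hN => diff_subset_diff_right fun t ht z a b c => ht z a b (c.trans_le (by
        gcongr))) ⟨0, measure_ne_top _ _⟩
    rw [← diff_iUnion, diff_self, measure_empty] at a
    exact (a.eventually (gt_mem_nhds (ENNReal.coe_pos.2 (η0 k)))).exists
  choose N hN using h1
  refine ⟨⋂ k, A k (N k), isClosed_iInter fun k => sm_closed _ _ _, fun h0 => ?_, fun ε hε => ?_⟩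
  · have a : B ⊆ (⋂ k, A k (N k)) ∪ ⋃ k, (⋃ n, A k n) \ A k (N k) := fun t ht => by
      refine or_iff_not_imp_left.2 fun b => ?_
      obtain ⟨k, hk⟩ := not_forall.1 (mt mem_iInter.2 b)
      obtain ⟨δ, d0, hδ⟩ := ht (1 / (k + 1)) (by positivity)
      obtain ⟨n, hn⟩ := exists_nat_one_div_lt d0
      exact mem_iUnion.2 ⟨k, mem_iUnion.2 ⟨n, fun z a b c => hδ z a b (c.trans hn)⟩, hk⟩
    have b := (measure_mono a).trans (measure_union_le (μ := μ) _ _)
    rw [h0, zero_add] at b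
    exact (b.trans ((measure_iUnion_le _).trans (ENNReal.tsum_le_tsum fun k => (hN k).le))).not_gt hη
  · obtain ⟨k, hk⟩ := exists_nat_one_div_lt hε
    exact ⟨1 / (N k + 1), by positivity, fun t ht z a b c => (mem_iInter.1 ht k z a b c).trans hk.le⟩

lemma rnm (n : ℕ) (z : ℂ) : (n * z).re = n * z.re := by simp

theorem priv {h : ℂ → ℂ} (hd : DifferentiableOn ℂ h (ball 0 1))
    (H : μ {t | ∀ ε > 0, ∃ δ > 0, Sm h ε δ t} ≠ 0) : EqOn h 0 (ball 0 1) := by
  obtain ⟨F, F1, F2, F3⟩ := ego H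
  have m := F1.measurableSet
  obtain ⟨G, G1, G2⟩ := her m
  obtain ⟨M, M0, hM⟩ : ∃ M > 0, ∀ t ∈ F, ∀ z : ℂ, ‖z‖ < 1 → ‖z - e t‖ < 3 * (1 - ‖z‖) → ‖h z‖ ≤ M := by
    obtain ⟨δ, d0, hδ⟩ := F3 1 one_pos
    obtain ⟨M, hM⟩ := (isCompact_closedBall (0 : ℂ) (1 - δ)).exists_bound_of_continuousOn
      (hd.continuousOn.mono (closedBall_subset_ball (by linarith)))
    refine ⟨|M| + 1, by positivity, fun t ht z a b => ?_⟩
    rcases lt_or_ge (1 - ‖z‖) δ with c | c
    · linarith [hδ t ht z a b c, abs_nonneg M]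
    · linarith [hM z (mem_closedBall_zero_iff.2 (by linarith)), le_abs_self M]
  have op : IsOpen {z : ℂ | ∃ t ∈ F, ‖z - e t‖ < 2 * (1 - ‖z‖)} := by
    simp only [setOf_exists, setOf_and]
    exact isOpen_iUnion fun t => isOpen_const.inter (isOpen_lt (by fun_prop) (by fun_prop))
  have key : ∀ z : ℂ, ‖z‖ < 1 → (∃ t ∈ F, ‖z - e t‖ < 2 * (1 - ‖z‖)) → 13 / 14 < hm F z →
      h z = 0 := fun z hz a b => by
    have k1 : ∀ n : ℕ, ‖h z‖ ≤ M * Real.exp (-(n * (hm F z - 13 / 14))) := fun n => by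
      obtain ⟨δ, d0, hδ⟩ := F3 (M * Real.exp (-(n / 14))) (by positivity)
      obtain ⟨ρ, r1, r2⟩ := exists_between (max_lt hz (show 1 - δ < 1 by linarith))
      rw [max_lt_iff] at r1
      set U := ball (0 : ℂ) ρ ∩ {z : ℂ | ∃ t ∈ F, ‖z - e t‖ < 2 * (1 - ‖z‖)}
      have U1 : closure U ⊆ closedBall 0 ρ :=
        (closure_mono inter_subset_left).trans closure_ball_subset_closedBall
      have U2 := U1.trans (closedBall_subset_ball r2)
      have := norm_le_of_forall_mem_frontier_norm_le (U := U) (isBounded_ball.subset inter_subset_left)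
        (f := fun w => h w * cexp (n * G w)) (((hd.mul (G1.const_mul _).cexp).mono U2).diffContOnCl)
        (C := M * Real.exp (n * (13 / 14))) (fun w hw => ?_)
        (subset_closure ⟨mem_ball_zero_iff.2 r1.1, a⟩)
      · rw [norm_mul, Complex.norm_exp, rnm, G2 z hz, ← le_div_iff₀ (Real.exp_pos _),
          mul_div_assoc, ← Real.exp_sub] at this
        rwa [show (n : ℝ) * (13 / 14) - n * hm F z = -(n * (hm F z - 13 / 14)) by ring] at this
      have w1 := mem_ball_zero_iff.1 (U2 hw.1)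
      obtain ⟨v, ⟨-, t, ht, v1⟩, v2⟩ := Metric.mem_closure_iff.1 hw.1 ((1 - ‖w‖) / 3) (by linarith)
      have w2 : ‖w - e t‖ < 3 * (1 - ‖w‖) := by
        have c1 := norm_sub_le_norm_sub_add_norm_sub w v (e t)
        have c2 := norm_sub_norm_le w v
        rw [dist_eq_norm] at v2
        linarith
      rw [norm_mul, Complex.norm_exp, rnm, G2 w w1]
      rcases (mem_closedBall_zero_iff.1 (U1 hw.1)).eq_or_lt with c | c
      · refine (mul_le_mul (hδ t ht w w1 w2 (by linarith)) (Real.exp_le_exp.2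
          (mul_le_of_le_one_right n.cast_nonneg (hm_le m w1))) (by positivity) (by positivity)).trans
          (le_of_eq ?_)
        rw [mul_assoc, ← Real.exp_add]
        congr 2
        ring
      · have c2 := hw.2
        rw [(isOpen_ball.inter op).interior_eq] at c2
        have c3 := lat m w1 fun s hs => not_lt.1 fun c3 => c2 ⟨mem_ball_zero_iff.2 c, s, hs, c3⟩
        gcongr
        exact hM t ht w w1 w2
    have k2 := (Real.tendsto_exp_neg_atTop_nhds_zero.comp (tendsto_natCast_atTop_atTop.atTop_mul_const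
      (sub_pos.2 b))).const_mul M
    rw [mul_zero] at k2
    exact norm_le_zero_iff.1 (ge_of_tendsto' k2 k1)
  obtain ⟨r, hr, t, ht, h1⟩ := near F1 F2
  have a := (rn hr t).trans_lt hr.2
  have b := mem_ball_zero_iff.2 a
  refine (hd.analyticOnNhd isOpen_ball).eqOn_zero_of_preconnected_of_eventuallyEq_zero
    (convex_ball 0 1).isPreconnected b ?_
  filter_upwards [isOpen_ball.mem_nhds b, op.mem_nhds ⟨t, ht, by
      rw [rn hr, ← sub_one_mul, norm_mul, e_norm, mul_one, ← ofReal_one, ← ofReal_sub, norm_real,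
        Real.norm_of_nonpos (sub_nonpos.2 hr.2.le)]
      linarith [hr.2]⟩,
    (continuous_re.continuousAt.comp (G1.continuousOn.continuousAt (isOpen_ball.mem_nhds b))).eventually
      (lt_mem_nhds (h1.trans_eq (G2 _ a).symm))] with z z1 z2 z3
  rw [mem_ball_zero_iff] at z1
  exact key z z1 z2 (z3.trans_eq (G2 z z1))

lemma lin {φ : ℂ → ℂ} (hd : DifferentiableOn ℂ φ (ball 0 1))
    (h : EqOn (fun z => z * deriv φ z - φ z) 0 (ball 0 1)) :
    ∃ c, ∀ z : ℂ, ‖z‖ < 1 → φ z = c * z := by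
  have h0 : φ 0 = 0 := by simpa using h (mem_ball_self one_pos)
  have h1 := (differentiableOn_dslope (ball_mem_nhds 0 one_pos)).2 hd
  have b : (1 / 2 : ℂ) ∈ ball (0 : ℂ) 1 := by simp; norm_num
  have h2 := ((h1.deriv isOpen_ball).analyticOnNhd
    isOpen_ball).eqOn_zero_of_preconnected_of_eventuallyEq_zero (convex_ball 0 1).isPreconnected b (by
      filter_upwards [isOpen_ball.mem_nhds b, isOpen_ne.mem_nhds (show (1 / 2 : ℂ) ≠ 0 by norm_num)]
        with z z1 z2
      have a1 : dslope φ 0 =ᶠ[𝓝 z] fun w => φ w / w := (isOpen_ne.eventually_mem z2).mono fun w hw => by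
        rw [dslope_of_ne _ hw, slope_def_field, h0, sub_zero, sub_zero]
      have a2 := h z1
      simp only [Pi.zero_apply] at a2 ⊢
      rw [a1.deriv_eq, ((hd.differentiableAt (isOpen_ball.mem_nhds z1)).hasDerivAt.fun_div
        (hasDerivAt_id' z) z2).deriv, div_eq_zero_iff]
      exact .inl (by linear_combination a2))
  refine ⟨dslope φ 0 0, fun z hz => ?_⟩
  have h3 := sub_smul_dslope φ 0 z
  rw [h0, sub_zero, sub_zero, smul_eq_mul] at h3
  rw [← h3, isOpen_ball.is_const_of_deriv_eq_zero (convex_ball 0 1).isPreconnected h1 h2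
    (mem_ball_zero_iff.2 hz) (mem_ball_self one_pos), mul_comm]

end Pool.Agent.H.MP_a5725d_an
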