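import Pool.Agent.H.MP_a5725d_an.A
import Pool.Agent.H.MP_a5725d_an.B

set_option autoImplicit false
namespace Pool.Agent.H.MP_a5725d_an
open MeasureTheory Metric Pool.Agent.H.MP_ceba03_an ComplexConjugate Filter Topology Set
open Pool.Agent.H.MP_e9aa5f_an Pool.Agent.H.MP_c4e2dd_an Pool.Agent.H.MP_535799_an Complex
open Pool.Agent.H.MP_496271_an

lemma wei {X : Type} [MeasurableSpace X] {ν : Measure X} [IsFiniteMeasure ν] {x : X → ℝ}
    (hx : AEStronglyMeasurable x ν) (x01 : ∀ t, x t ∈ Icc (0 : ℝ) 1) {w p : ℕ → ℕ → ℝ}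
    (w0 : ∀ m j, 0 ≤ w m j) (ws : ∀ m, Summable (w m)) (w1 : ∀ m, ∑' j, w m j ≤ 1)
    (p01 : ∀ m j, p m j ∈ Icc (0 : ℝ) 1)
    (h : ∀ s : ℕ, Tendsto (fun m => ∑' j, w m j * p m j ^ s) atTop (𝓝 (∫ t, x t ^ s ∂ν)))
    {G : ℝ → ℝ} (hG : Continuous G) :
    Tendsto (fun m => ∑' j, w m j * G (p m j)) atTop (𝓝 (∫ t, G (x t) ∂ν)) := by
  have h1 : ∀ {G : ℝ → ℝ}, Continuous G → (∀ m, Summable fun j => w m j * G (p m j)) ∧
      Integrable (fun t => G (x t)) ν := fun {G} hG => by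
    obtain ⟨B, hB⟩ := (isCompact_Icc (a := (0 : ℝ)) (b := 1)).exists_bound_of_continuousOn
      hG.continuousOn
    refine ⟨fun m => .of_norm_bounded ((ws m).mul_right B) fun j => ?_,
      .of_bound (hG.comp_aestronglyMeasurable hx) B (.of_forall fun t => hB _ (x01 t))⟩
    rw [norm_mul, Real.norm_of_nonneg (w0 m j)]
    exact mul_le_mul_of_nonneg_left (hB _ (p01 m j)) (w0 m j)
  have h2 : ∀ P : Polynomial ℝ, Tendsto (fun m => ∑' j, w m j * P.eval (p m j)) atTop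
      (𝓝 (∫ t, P.eval (x t) ∂ν)) := fun P => by
    induction P using Polynomial.induction_on' with
    | add P Q hP hQ =>
      simp only [Polynomial.eval_add, mul_add]
      rw [integral_add (h1 P.continuous).2 (h1 Q.continuous).2]
      exact (hP.add hQ).congr fun m =>
        (((h1 P.continuous).1 m).tsum_add ((h1 Q.continuous).1 m)).symm
    | monomial n a =>
      simp only [Polynomial.eval_monomial, mul_left_comm _ a, tsum_mul_left, integral_const_mul]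
      exact (h n).const_mul a
  refine Metric.tendsto_atTop.2 fun ε hε => ?_
  set η := ε / (2 + ν.real univ) with hη
  have η0 : 0 < η := by positivity
  obtain ⟨P, hP⟩ := exists_polynomial_near_of_continuousOn 0 1 G hG.continuousOn η η0
  obtain ⟨N, hN⟩ := Metric.tendsto_atTop.1 (h2 P) η η0
  refine ⟨N, fun m hm => ?_⟩
  have a1 : dist (∑' j, w m j * G (p m j)) (∑' j, w m j * P.eval (p m j)) ≤ η := by
    rw [dist_comm, dist_eq_norm, ← ((h1 P.continuous).1 m).tsum_sub ((h1 hG).1 m)]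
    refine (tsum_of_norm_bounded ((ws m).mul_right η).hasSum fun j => ?_).trans ?_
    · rw [← mul_sub, norm_mul, Real.norm_of_nonneg (w0 m j)]
      exact mul_le_mul_of_nonneg_left (hP _ (p01 m j)).le (w0 m j)
    · rw [tsum_mul_right]
      exact mul_le_of_le_one_left η0.le (w1 m)
  have a2 : dist (∫ t, P.eval (x t) ∂ν) (∫ t, G (x t) ∂ν) ≤ η * ν.real univ := by
    rw [dist_eq_norm, ← integral_sub (h1 P.continuous).2 (h1 hG).2]
    exact norm_integral_le_of_norm_le_const (.of_forall fun t => (hP _ (x01 t)).le)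
  have a3 : η * (2 + ν.real univ) = ε := div_mul_cancel₀ _ (by positivity)
  linarith [dist_triangle4 (∑' j, w m j * G (p m j)) (∑' j, w m j * P.eval (p m j))
    (∫ t, P.eval (x t) ∂ν) (∫ t, G (x t) ∂ν), hN m hm]

lemma rl1 {c : ℝ} (hc : 0 < c) :
    Tendsto (fun m : ℕ => Real.exp (-(c / m))) atTop (𝓝[<] 1) := by
  refine tendsto_nhdsWithin_iff.2 ⟨?_, (eventually_gt_atTop 0).mono fun m hm =>
    Real.exp_lt_one_iff.2 (neg_lt_zero.2 (by positivity))⟩
  simpa using (tendsto_const_div_atTop_nhds_zero_nat c).neg.rexp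

lemma rl2 {c : ℝ} (hc : 0 < c) :
    Tendsto (fun m : ℕ => m * (1 - Real.exp (-(c / m)))) atTop (𝓝 c) := by
  have h1 := (hasDerivAt_iff_tendsto_slope_zero.1 (Real.hasDerivAt_exp 0)).comp
    (tendsto_nhdsWithin_iff.2 ⟨by simpa using (tendsto_const_div_atTop_nhds_zero_nat c).neg,
      (eventually_gt_atTop 0).mono fun m hm => (neg_lt_zero.2 (show 0 < c / (m : ℕ) by
        positivity)).ne⟩)
  have h2 := h1.const_mul c
  rw [Real.exp_zero, mul_one] at h2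
  refine h2.congr' ((eventually_gt_atTop 0).mono fun m hm => ?_)
  simp only [Function.comp, zero_add, smul_eq_mul]
  field_simp
  ring

variable {φ : ℂ → ℂ} {ζ : ℂ}

lemma q_eq (φ : ℂ → ℂ) (ζ : ℂ) {r : ℝ} (hr : r < 1) : ‖φ (r * ζ)‖ = 1 + -(q φ ζ r * (1 - r)) := by
  rw [q, div_mul_cancel₀ _ (sub_pos.2 hr).ne']; ring

lemma lap1 {c d : ℝ} (hc : 0 < c) (h : Tendsto (q φ ζ) (𝓝[<] 1) (𝓝 d)) :
    Tendsto (fun m : ℕ => ‖φ (Real.exp (-(c / m)) * ζ)‖ ^ m) atTop (𝓝 (Real.exp (-(d * c)))) := by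
  refine (Real.tendsto_one_add_pow_exp_of_tendsto (g := fun m => -(q φ ζ (Real.exp (-(c / m))) *
    (1 - Real.exp (-(c / m))))) (((h.comp (rl1 hc)).mul (rl2 hc)).neg.congr fun m => by
      simp only [Function.comp]; ring)).congr'
    (((rl1 hc).eventually self_mem_nhdsWithin).mono fun m hm => ?_)
  simp only [q_eq φ ζ hm]

lemma lap2 {c : ℝ} (hc : 0 < c) (h : Tendsto (q φ ζ) (𝓝[<] 1) atTop) :
    Tendsto (fun m : ℕ => ‖φ (Real.exp (-(c / m)) * ζ)‖ ^ m) atTop (𝓝 0) := by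
  refine squeeze_zero' (.of_forall fun m => by positivity)
    (((rl1 hc).eventually self_mem_nhdsWithin).mono fun m hm => ?_)
    (Real.tendsto_exp_neg_atTop_nhds_zero.comp ((h.comp (rl1 hc)).atTop_mul_pos hc (rl2 hc)))
  refine (pow_le_pow_left₀ (norm_nonneg _) ((q_eq φ ζ hm).trans_le
    ((add_comm _ _).trans_le (Real.add_one_le_exp _))) m).trans (le_of_eq ?_)
  rw [← Real.exp_nat_mul]
  simp only [Function.comp]
  congr 1
  ring

lemma xex (hd : DifferentiableOn ℂ φ (ball 0 1)) (hm : ∀ z : ℂ, ‖z‖ < 1 → ‖φ z‖ < 1) :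
    ∃ x : T → ℝ, (∀ t d, Tendsto (q φ (e t)) (𝓝[<] 1) (𝓝 d) → x t = Real.exp (-d)) ∧
      (∀ t, Tendsto (q φ (e t)) (𝓝[<] 1) atTop → x t = 0) ∧ (∀ t, x t ∈ Icc (0 : ℝ) 1) ∧
      ∀ t (s : ℕ), 0 < s → Tendsto (fun m : ℕ => (‖φ (Real.exp (-(s / 2 / m)) * e t)‖ ^ m) ^ 2) atTop
        (𝓝 (x t ^ s)) := by
  classical
  let x : T → ℝ := fun t =>
    if h : ∃ d, Tendsto (q φ (e t)) (𝓝[<] 1) (𝓝 d) then Real.exp (-h.choose) else 0
  have h1 : ∀ t d, Tendsto (q φ (e t)) (𝓝[<] 1) (𝓝 d) → x t = Real.exp (-d) := fun t d h => by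
    have h' : ∃ d, Tendsto (q φ (e t)) (𝓝[<] 1) (𝓝 d) := ⟨d, h⟩
    simp only [x, dif_pos h']
    rw [tendsto_nhds_unique h'.choose_spec h]
  have h2 : ∀ t, Tendsto (q φ (e t)) (𝓝[<] 1) atTop → x t = 0 := fun t h =>
    dif_neg fun ⟨d, hd⟩ => not_tendsto_atTop_of_tendsto_nhds hd h
  refine ⟨x, h1, h2, fun t => ?_, fun t s hs => ?_⟩
  · obtain h | ⟨d, -, -, h⟩ := dich hd hm (e_norm t)
    · simp [h2 t h]
    · rw [h1 t d h]
      exact ⟨(Real.exp_pos _).le, Real.exp_le_one_iff.2 (neg_nonpos.2 (ge_of_tendsto h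
        ((q_pos hm (e_norm t)).mono fun r hr => hr.le)))⟩
  · have c0 : (0 : ℝ) < s / 2 := by positivity
    obtain h | ⟨d, -, -, h⟩ := dich hd hm (e_norm t)
    · simpa [h2 t h, hs.ne'] using (lap2 c0 h).pow 2
    · convert (lap1 c0 h).pow 2 using 2
      rw [h1 t d h, ← Real.exp_nat_mul, ← Real.exp_nat_mul]
      congr 1
      push_cast
      ring

lemma par {a : ℕ → ℂ} {B : ℝ} (hB : ∀ k, ‖a k‖ ≤ B) {r : ℝ} (hr : r ∈ Ioo (0 : ℝ) 1) :
    HasSum (fun k => ‖a k‖ ^ 2 * (r ^ k) ^ 2) (∫ t, ‖∑' k, a k * (r * e t) ^ k‖ ^ 2 ∂μ) := by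
  have h1 : Summable fun k : ℕ => (a k * r ^ k) • (fourier k : C(T, ℂ)) :=
    .of_norm_bounded ((summable_geometric_of_lt_one hr.1.le hr.2).mul_left B) fun k => by
      rw [norm_smul, fourier_norm, mul_one, norm_mul, norm_pow, norm_real, Real.norm_of_nonneg hr.1.le]
      exact mul_le_mul_of_nonneg_right (hB k) (pow_nonneg hr.1.le k)
  obtain ⟨U, hU⟩ := h1
  have h2 : ∀ t, U t = ∑' k, a k * (r * e t) ^ k := fun t => by
    rw [← (ContinuousMap.hasSum_apply hU t).tsum_eq]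
    simp only [ContinuousMap.smul_apply, smul_eq_mul, e_pow, mul_pow, mul_assoc]
  have h3 : ∀ n : ℤ, HasSum (fun k : ℕ => a k * r ^ k * if n = k then 1 else 0) (co n (toL U)) :=
    fun n => by simpa only [ContinuousLinearMap.comp_apply, map_smul, co_fourier, smul_eq_mul] using
      ((co n).comp toL).hasSum hU
  have h4 := parseval U
  simp only [h2] at h4
  rw [← Nat.cast_injective (R := ℤ).hasSum_iff fun n hn => by
    have := h3 n
    simp only [if_neg fun h : n = (_ : ℕ) => hn ⟨_, h.symm⟩, mul_zero] at this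
    rw [this.unique hasSum_zero]; simp] at h4
  convert h4 using 2 with k
  have := (h3 k).unique (hasSum_single k fun j hj => by simp [hj.symm])
  simp [this, mul_pow, abs_of_pos hr.1]

theorem mom (hd : DifferentiableOn ℂ φ (ball 0 1)) (hm : ∀ z : ℂ, ‖z‖ < 1 → ‖φ z‖ < 1)
    {w : ℕ → ℕ → ℝ} (w0 : ∀ m j, 0 ≤ w m j) (ws : ∀ m, Summable (w m))
    (hw : ∀ m, ∀ r ∈ Ioo (0 : ℝ) 1, HasSum (fun j => w m j * (r ^ j) ^ 2)
      (∫ t, (‖φ (r * e t)‖ ^ m) ^ 2 ∂μ)) : ∃ (E : Set T) (x : T → ℝ), NullMeasurableSet E μ ∧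
      (∀ᵐ t ∂μ, t ∈ E ↔ Tendsto (fun r : ℝ => ‖φ (r * e t)‖) (𝓝[<] 1) (𝓝 1)) ∧
      (∀ t d, Tendsto (q φ (e t)) (𝓝[<] 1) (𝓝 d) → x t = Real.exp (-d)) ∧
      (∀ t, Tendsto (q φ (e t)) (𝓝[<] 1) atTop → x t = 0) ∧ AEStronglyMeasurable x μ ∧
      ∀ G : ℝ → ℝ, Continuous G → Tendsto (fun m : ℕ => ∑' j : ℕ, w m j * G (Real.exp (-(j / m))))
        atTop (𝓝 (∫ t in E, G (x t) ∂μ)) := by
  obtain ⟨g, g1, g2⟩ := bval hd fun z hz => (hm z (mem_ball_zero_iff.1 hz)).le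
  obtain ⟨x, x1, x2, x3, x4⟩ := xex hd hm
  have I := Ioo_mem_nhdsLT (show (0 : ℝ) < 1 by norm_num)
  have g3 : ∀ᵐ t ∂μ, Tendsto (fun r : ℝ => ‖φ (r * e t)‖) (𝓝[<] 1) (𝓝 ‖g t‖) :=
    (fatou g1).mono fun t ht => ht.norm.congr' (Eventually.mono I fun r hr => congrArg norm
      (g2 _ (mem_ball_zero_iff.2 ((rn hr t).trans_lt hr.2))))
  have c1 : ∀ r ∈ Ioo (0 : ℝ) 1, ∀ m : ℕ, AEStronglyMeasurable (fun t => (‖φ (r * e t)‖ ^ m) ^ 2) μ ∧
      ∀ᵐ t ∂μ, ‖(‖φ (r * e t)‖ ^ m) ^ 2‖ ≤ 1 := fun r hr m =>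
    ⟨((((an_dil hd hr).2.co.comp_continuous e_cont e_mem).norm.pow m).pow 2).aestronglyMeasurable,
      .of_forall fun t => by
        rw [Real.norm_of_nonneg (by positivity)]
        exact pow_le_one₀ (by positivity) (pow_le_one₀ (norm_nonneg _)
          (hm _ ((rn hr t).trans_lt hr.2)).le)⟩
  have c2 : ∀ s : ℕ, 0 < s → ∀ᶠ m : ℕ in atTop, Real.exp (-(s / 2 / m)) ∈ Ioo (0 : ℝ) 1 :=
    fun s hs => (rl1 (by positivity)).eventually I
  have mx : AEStronglyMeasurable x μ := by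
    refine aestronglyMeasurable_of_tendsto_ae atTop (f := fun (m : ℕ) t =>
      (‖φ (Real.exp (-((1 : ℕ) / 2 / (m + 1 : ℕ))) * e t)‖ ^ (m + 1)) ^ 2) (fun m => (c1 _
        ⟨Real.exp_pos _, Real.exp_lt_one_iff.2 (neg_lt_zero.2 (by positivity))⟩ _).1)
      (.of_forall fun t => ?_)
    exact pow_one (x t) ▸ (x4 t 1 one_pos).comp (tendsto_add_atTop_nat 1)
  have mE : NullMeasurableSet {t | ‖g t‖ = 1} μ :=
    g1.1.1.norm.nullMeasurableSet_eq_fun aestronglyMeasurable_const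
  have c3 : ∀ m, ∑' j, w m j = ∫ t, (‖g t‖ ^ m) ^ 2 ∂μ := fun m => by
    refine tendsto_nhds_unique (l := 𝓝[<] (1 : ℝ)) ((tendsto_tsum_of_dominated_convergence
      (f := fun (r : ℝ) j => w m j * (r ^ j) ^ 2) (ws m) (fun j => by
        simpa using ((tid.pow j).pow 2).const_mul (w m j)) (Eventually.mono I fun r hr j => ?_)).congr'
      (Eventually.mono I fun r hr => (hw m r hr).tsum_eq))
      (tendsto_integral_filter_of_dominated_convergence (fun _ => 1)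
        (Eventually.mono I fun r hr => (c1 r hr m).1) (Eventually.mono I fun r hr => (c1 r hr m).2)
        (integrable_const _) (g3.mono fun t ht => (ht.pow m).pow 2))
    rw [Real.norm_of_nonneg (mul_nonneg (w0 m j) (by positivity))]
    exact mul_le_of_le_one_right (w0 m j) (pow_le_one₀ (pow_nonneg hr.1.le _)
      (pow_le_one₀ hr.1.le hr.2.le))
  have c4 : ∀ m, ∀ᵐ t ∂μ, ‖(‖g t‖ ^ m) ^ 2‖ ≤ 1 := fun m => g1.1.2.mono fun t ht => by
    rw [Real.norm_of_nonneg (by positivity)]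
    exact pow_le_one₀ (by positivity) (pow_le_one₀ (norm_nonneg _) ht)
  refine ⟨{t | ‖g t‖ = 1}, x, mE, g3.mono fun t ht => ⟨fun h => (show ‖g t‖ = 1 from h) ▸ ht,
    tendsto_nhds_unique ht⟩, x1, x2, mx, fun G hG => wei mx.restrict x3 w0 ws (fun m => ?_)
      (fun m j => ⟨(Real.exp_pos _).le, Real.exp_le_one_iff.2 (neg_nonpos.2 (by positivity))⟩)
      (fun s => ?_) hG⟩
  · rw [c3]
    simpa using (le_abs_self _).trans (norm_integral_le_of_norm_le_const (c4 m))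
  rcases s.eq_zero_or_pos with rfl | hs
  · simp only [pow_zero, mul_one, c3]
    rw [← integral_indicator₀ mE]
    refine tendsto_integral_of_dominated_convergence (fun _ => 1)
      (fun m => (g1.1.1.norm.pow m).pow 2) (integrable_const _) c4 (g1.1.2.mono fun t ht => ?_)
    rcases ht.eq_or_lt with h | h
    · simp [h]
    · simpa [h.ne] using (tendsto_pow_atTop_nhds_zero_of_lt_one (norm_nonneg _) h).pow 2
  rw [setIntegral_eq_integral_of_ae_compl_eq_zero (g3.mono fun t ht h => by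
    obtain h1 | ⟨d, -, -, h1⟩ := dich hd hm (e_norm t)
    · simp [x2 t h1, hs.ne']
    · exact (h (tendsto_nhds_unique ht (nlim (e_norm t) le_rfl h1))).elim)]
  refine (tendsto_integral_filter_of_dominated_convergence (fun _ => 1)
    ((c2 s hs).mono fun m hm => (c1 _ hm m).1) ((c2 s hs).mono fun m hm => (c1 _ hm m).2)
    (integrable_const _) (.of_forall fun t => x4 t s hs)).congr' ((c2 s hs).mono fun m hm => ?_)
  rw [← (hw m _ hm).tsum_eq]
  refine tsum_congr fun j => ?_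
  rw [← Real.exp_nat_mul, ← Real.exp_nat_mul, ← Real.exp_nat_mul]
  congr 2
  push_cast
  ring

end Pool.Agent.H.MP_a5725d_an
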