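import Pool.Agent.H.MP_a5725d_an.C

set_option autoImplicit false
namespace Pool.Agent.H.MP_a5725d_an
open MeasureTheory Metric Pool.Agent.H.MP_ceba03_an ComplexConjugate Filter Topology Set
open Pool.Agent.H.MP_e9aa5f_an Pool.Agent.H.MP_c4e2dd_an Pool.Agent.H.MP_535799_an Complex
open Pool.Agent.H.MP_496271_an ContinuousLinearMap

noncomputable abbrev H2 := lp (fun _ : ℕ => ℂ) 2

noncomputable def ev (a : H2) (z : ℂ) : ℂ := ∑' k, a k * z ^ k

noncomputable def ee (k : ℕ) : H2 := lp.single 2 k 1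

lemma nb (a : H2) (k : ℕ) : ‖a k‖ ≤ ‖a‖ := lp.norm_apply_le_norm two_ne_zero a k

lemma nsq (a : H2) : HasSum (fun k => ‖a k‖ ^ 2) (‖a‖ ^ 2) := by
  simpa using lp.hasSum_norm (p := 2) (by norm_num) a

lemma ev_sum (a : H2) {z : ℂ} (hz : ‖z‖ < 1) : Summable fun k => a k * z ^ k :=
  .of_norm_bounded ((summable_geometric_of_lt_one (norm_nonneg z) hz).mul_left ‖a‖) fun k => by
    rw [norm_mul, norm_pow]
    exact mul_le_mul_of_nonneg_right (nb a k) (by positivity)

lemma uq {a b : H2} (h : ∀ z : ℂ, ‖z‖ < 1 → ev a z = ev b z) : a = b := by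
  have hr : (1 / 2 : ℝ) ∈ Ioo (0 : ℝ) 1 := by norm_num
  have h1 := par (nb (a - b)) hr
  have h2 : ∀ t, ∑' k, (a - b) k * ((1 / 2 : ℝ) * e t) ^ k = 0 := fun t => by
    have z1 := (rn hr t).trans_lt hr.2
    simp only [lp.coeFn_sub, Pi.sub_apply, sub_mul]
    rw [(ev_sum a z1).tsum_sub (ev_sum b z1)]
    exact sub_eq_zero.2 (h _ z1)
  simp only [h2, norm_zero, ne_eq, OfNat.ofNat_ne_zero, not_false_eq_true, zero_pow,
    integral_zero] at h1
  refine sub_eq_zero.1 (lp.ext (funext fun k => ?_))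
  simpa using congrFun ((hasSum_zero_iff_of_nonneg fun k => by positivity).1 h1) k

lemma ev_ee (c : ℂ) (k : ℕ) (z : ℂ) : ev (c • ee k) z = c * z ^ k := by
  rw [ev, tsum_eq_single k fun j hj => by simp [ee, hj]]
  simp [ee]

lemma dens {A : ℕ → H2 →L[ℂ] H2} {K : ℝ} (hK : ∀ n, ‖A n‖ ≤ K)
    (h : ∀ k, Tendsto (fun n => A n (ee k)) atTop (𝓝 0)) (a : H2) :
    Tendsto (fun n => A n a) atTop (𝓝 0) := by
  have K0 := (norm_nonneg _).trans (hK 0)
  refine NormedAddGroup.tendsto_nhds_zero.2 fun ε hε => ?_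
  obtain ⟨s, hs⟩ := (Metric.tendsto_nhds.1 (lp.hasSum_single (p := 2) (by simp) a) (ε / 2 / (K + 1))
    (by positivity)).exists
  have h1 : Tendsto (fun n => A n (∑ k ∈ s, lp.single 2 k (a k))) atTop (𝓝 0) := by
    have := tendsto_finsetSum s fun k _ => (h k).const_smul (a k)
    simp only [smul_zero, Finset.sum_const_zero] at this
    refine this.congr fun n => ?_
    rw [map_sum]
    refine Finset.sum_congr rfl fun k _ => ?_
    rw [← map_smul, ee, ← lp.single_smul, smul_eq_mul, mul_one]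
  filter_upwards [NormedAddGroup.tendsto_nhds_zero.1 h1 _ (half_pos hε)] with n hn
  have h2 := ((A n).le_opNorm _).trans (mul_le_mul_of_nonneg_right (hK n)
    (norm_nonneg ((∑ k ∈ s, lp.single 2 k (a k)) - a)))
  rw [dist_eq_norm, lt_div_iff₀ (by positivity)] at hs
  rw [map_sub] at h2
  nlinarith [norm_le_insert (A n (∑ k ∈ s, lp.single 2 k (a k))) (A n a),
    norm_nonneg ((∑ k ∈ s, lp.single 2 k (a k)) - a)]

noncomputable def GG (a η y : ℝ) : ℝ := max 0 (min 1 ((a - y) / η))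

lemma GG_cont (a η : ℝ) : Continuous (GG a η) := by unfold GG; fun_prop

lemma GG_nn (a η y : ℝ) : 0 ≤ GG a η y := le_max_left _ _

lemma GG_le (a η y : ℝ) : GG a η y ≤ 1 := max_le zero_le_one (min_le_left _ _)

lemma GG_zero {a η y : ℝ} (hη : 0 < η) (h : a ≤ y) : GG a η y = 0 :=
  max_eq_left ((min_le_right _ _).trans (div_nonpos_of_nonpos_of_nonneg (sub_nonpos.2 h) hη.le))

lemma GG_one {a η y : ℝ} (hη : 0 < η) (h : y + η ≤ a) : GG a η y = 1 := by
  rw [GG, min_eq_left ((one_le_div hη).2 (by linarith)), max_eq_right zero_le_one]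

lemma GG_sum {w p : ℕ → ℝ} (w0 : ∀ j, 0 ≤ w j) (ws : Summable w) (a η : ℝ) :
    Summable fun j => w j * GG a η (p j) :=
  .of_nonneg_of_le (fun j => mul_nonneg (w0 j) (GG_nn _ _ _))
    (fun j => mul_le_of_le_one_right (w0 j) (GG_le _ _ _)) ws

variable {M C : H2 →L[ℂ] H2} {φ : ℂ → ℂ}

lemma M_ee (hM : ∀ a, ∀ z : ℂ, ‖z‖ < 1 → ev (M a) z = z * ev a z) (n k : ℕ) :
    (M ^ n) (ee k) = ee (k + n) := by
  induction n with
  | zero => rfl
  | succ n ih =>
    rw [pow_succ', ContinuousLinearMap.mul_apply, ih]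
    refine uq fun z hz => ?_
    have h := fun k => ev_ee 1 k z
    simp only [one_smul, one_mul] at h
    rw [hM _ z hz, h, h, ← add_assoc, pow_succ']

lemma adj (hM : ∀ a, ∀ z : ℂ, ‖z‖ < 1 → ev (M a) z = z * ev a z) (n : ℕ) (b : H2) (k : ℕ) :
    (adjoint M ^ n) b k = b (k + n) := by
  have h : ∀ (k : ℕ) (b : H2), inner ℂ (ee k) b = b k := fun k b => by
    rw [ee, lp.inner_single_left]; simp
  rw [← h, ← h, ← M_ee hM, ← star_eq_adjoint, ← star_pow, star_eq_adjoint, adjoint_inner_right]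

lemma adj_sq (hM : ∀ a, ∀ z : ℂ, ‖z‖ < 1 → ev (M a) z = z * ev a z) (n : ℕ) (b : H2) :
    ‖(adjoint M ^ n) b‖ ^ 2 = ∑' k, ‖b (k + n)‖ ^ 2 := by
  simp only [← (nsq _).tsum_eq, adj hM]

lemma adj_le (hM : ∀ a, ∀ z : ℂ, ‖z‖ < 1 → ev (M a) z = z * ev a z) (n : ℕ) :
    ‖adjoint M ^ n‖ ≤ 1 := by
  refine opNorm_le_bound _ zero_le_one fun b => ?_
  rw [one_mul, ← sq_le_sq₀ (norm_nonneg _) (norm_nonneg _), adj_sq hM, ← (nsq b).tsum_eq,
    ← (nsq b).summable.sum_add_tsum_nat_add n]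
  exact le_add_of_nonneg_left (by positivity)

lemma T_le (hM : ∀ a, ∀ z : ℂ, ‖z‖ < 1 → ev (M a) z = z * ev a z) (n : ℕ) :
    ‖adjoint M ^ n * C * M ^ n‖ ≤ ‖C‖ := by
  have h1 := adj_le hM n
  have h2 : ‖M ^ n‖ ≤ 1 := by rwa [← star_eq_adjoint, ← star_pow, norm_star] at h1
  refine (norm_mul_le _ _).trans ((mul_le_of_le_one_right (norm_nonneg _) h2).trans
    ((norm_mul_le _ _).trans (mul_le_of_le_one_left (norm_nonneg _) h1)))

theorem main (hd : DifferentiableOn ℂ φ (ball 0 1)) (hm : ∀ z : ℂ, ‖z‖ < 1 → ‖φ z‖ < 1)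
    (hM : ∀ a, ∀ z : ℂ, ‖z‖ < 1 → ev (M a) z = z * ev a z)
    (hC : ∀ a, ∀ z : ℂ, ‖z‖ < 1 → ev (C a) z = ev a (φ z)) :
    (∃ A : H2 →L[ℂ] H2, ∀ a, Tendsto (fun n => (adjoint M ^ n * C * M ^ n) a) atTop (𝓝 (A a))) ↔
    (∀ z : ℂ, ‖z‖ < 1 → φ z = z) ∨ ∀ᵐ t ∂μ, Tendsto (fun r : ℝ => ‖φ (r * e t)‖) (𝓝[<] 1) (𝓝 1) →
      ∃ d < 1, Tendsto (q φ (e t)) (𝓝[<] 1) (𝓝 d) := by
  have e1 : ∀ k z, ev (ee k) z = z ^ k := fun k z => by simpa using ev_ee 1 k z
  have e2 : ∀ n k, (adjoint M ^ n * C * M ^ n) (ee k) = (adjoint M ^ n) (C (ee (k + n))) :=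
    fun n k => congrArg (fun b => (adjoint M ^ n) (C b)) (M_ee hM n k)
  have e3 : ∀ c : ℂ, (∀ z : ℂ, ‖z‖ < 1 → φ z = c * z) → ∀ k, C (ee k) = c ^ k • ee k := fun c h k =>
    uq fun z hz => by rw [hC _ z hz, e1, ev_ee, h z hz, mul_pow]
  set w : ℕ → ℕ → ℝ := fun m j => ‖C (ee m) j‖ ^ 2 with hw
  have w0 : ∀ m j, 0 ≤ w m j := fun m j => sq_nonneg _
  have ws : ∀ m, Summable (w m) := fun m => (nsq _).summable
  obtain ⟨E, x, mE, E1, x1, x2, mx, H⟩ := mom hd hm w0 ws fun m r hr => by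
    convert par (nb (C (ee m))) hr using 3 with t
    rw [← norm_pow, ← e1, ← hC _ _ ((rn hr t).trans_lt hr.2), ev]
  have iG : ∀ a η, Integrable (fun t => GG a η (x t)) (μ.restrict E) := fun a η =>
    .of_bound ((GG_cont a η).comp_aestronglyMeasurable mx.restrict) 1 (.of_forall fun t => by
      rw [Real.norm_of_nonneg (GG_nn _ _ _)]; exact GG_le _ _ _)
  constructor
  · rintro ⟨A, hA⟩
    have h1 : ∀ δ > 0, ∀ᵐ t ∂μ, t ∈ E → Real.exp (-(1 + δ)) ≤ x t := fun δ d0 => by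
      have t0 : Tendsto (fun m : ℕ => ∑' j : ℕ, w m j * GG (Real.exp (-(1 + δ))) 1
          (Real.exp (-(j / m)))) atTop (𝓝 0) := by
        refine tendsto_order.2 ⟨fun c hc => .of_forall fun m => hc.trans_le (tsum_nonneg fun j =>
          mul_nonneg (w0 m j) (GG_nn _ _ _)), fun ε hε => ?_⟩
        obtain ⟨J, hJ⟩ := ((tendsto_sum_nat_add fun k => ‖A (ee 0) k‖ ^ 2).eventually
          (gt_mem_nhds hε)).exists
        rw [← adj_sq hM] at hJ
        filter_upwards [((((adjoint M ^ J).continuous.tendsto _).comp (hA (ee 0))).norm.pow 2).eventually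
          (gt_mem_nhds hJ |>.mono fun y hy => hy), eventually_gt_atTop 0,
          (tendsto_natCast_atTop_atTop.atTop_mul_const d0).eventually_ge_atTop (J : ℝ)] with n a1 a2 a3
        simp only [Function.comp, e2, adj_sq hM, adj hM, zero_add] at a1
        refine lt_of_le_of_lt ?_ a1
        have b1 := GG_sum (p := fun j : ℕ => Real.exp (-(j / n))) (w0 n) (ws n)
          (Real.exp (-(1 + δ))) 1
        have b2 : ∀ j ∈ Finset.range (J + n), w n j * GG (Real.exp (-(1 + δ))) 1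
            (Real.exp (-(j / n))) = 0 := fun j hj => by
          have b : (j : ℝ) ≤ J + n := by exact_mod_cast (Finset.mem_range.1 hj).le
          rw [GG_zero one_pos (Real.exp_le_exp.2 (neg_le_neg ?_)), mul_zero]
          rw [div_le_iff₀ (by positivity)]
          linarith
        rw [← b1.sum_add_tsum_nat_add (J + n), Finset.sum_eq_zero b2, zero_add]
        simp only [add_assoc]
        exact Summable.tsum_le_tsum (fun j => mul_le_of_le_one_right (w0 _ _) (GG_le _ _ _))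
          ((summable_nat_add_iff (J + n)).2 b1) ((summable_nat_add_iff (J + n)).2 (ws n))
      have h2 := (integral_eq_zero_iff_of_nonneg (fun t => GG_nn _ _ _) (iG _ _)).1
        (tendsto_nhds_unique (H _ (GG_cont _ _)) t0)
      refine (ae_restrict_iff'₀ mE).1 (h2.mono fun t ht => not_lt.1 fun h3 => ?_)
      exact (lt_max_of_lt_right (lt_min one_pos (div_pos (sub_pos.2 h3) one_pos))).ne' ht
    have h2 := ae_all_iff.2 fun k : ℕ => h1 (1 / (k + 1)) (by positivity)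
    by_cases h3 : μ {t | Tendsto (q φ (e t)) (𝓝[<] 1) (𝓝 1)} = 0
    · right
      filter_upwards [h2, E1, measure_eq_zero_iff_ae_notMem.1 h3] with t a1 a2 a3 a4
      obtain b | ⟨d, -, -, b⟩ := dich hd hm (e_norm t)
      · exact ((a1 0 (a2.2 a4)).not_gt ((x2 t b).trans_lt (Real.exp_pos _))).elim
      refine ⟨d, lt_of_le_of_ne (le_of_forall_pos_le_add fun ε hε => ?_) fun h => a3 (h ▸ b), b⟩
      obtain ⟨k, hk⟩ := exists_nat_one_div_lt hε
      have := a1 k (a2.2 a4)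
      rw [x1 t d b, Real.exp_le_exp] at this
      linarith
    left
    have ad := (hd.analyticOnNhd isOpen_ball).deriv.differentiableOn
    obtain ⟨c, hc⟩ := lin hd (priv ((differentiableOn_id.mul ad).sub hd) fun h => h3
      (measure_mono_null (by exact fun t ht ε hε => nt2 hd hm (e_norm t) ht hε) h))
    obtain ⟨t, ht⟩ := nonempty_of_measure_ne_zero h3
    have c1 : ‖c‖ = 1 := by
      have a := tendsto_nhds_unique ((nlim (e_norm t) le_rfl ht).congr' (Eventually.mono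
        (Ioo_mem_nhdsLT one_pos) fun r hr => by
          beta_reduce
          rw [hc _ ((rn hr t).trans_lt hr.2), norm_mul, rn hr])) (tid.const_mul ‖c‖)
      rw [a, mul_one]
    have c2 : Tendsto (fun n => c ^ n) atTop (𝓝 (A (ee 0) 0)) :=
      (((lp.evalCLM ℂ (fun _ : ℕ => ℂ) 2 0).continuous.tendsto _).comp (hA (ee 0))).congr fun n => by
        simp only [Function.comp, e2, e3 c hc]
        exact (adj hM _ _ _).trans (by simp [ee])
    have c3 : ‖A (ee 0) 0‖ = 1 := tendsto_nhds_unique c2.norm (by simp [c1])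
    have c4 := tendsto_nhds_unique (c2.comp (tendsto_add_atTop_nat 1))
      ((c2.mul_const c).congr fun n => (pow_succ c n).symm)
    have c5 : c = 1 := (mul_left_cancel₀ (norm_pos_iff.1 (c3 ▸ one_pos)) ((mul_one _).trans c4)).symm
    simpa [c5] using hc
  rintro (h | h)
  · refine ⟨1, fun a => ?_⟩
    have := dens (A := fun n => adjoint M ^ n * C * M ^ n - 1) (K := ‖C‖ + 1) (fun n =>
      (norm_sub_le _ _).trans (add_le_add (T_le hM n) norm_id_le)) (fun k => ?_) a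
    · exact tendsto_sub_nhds_zero_iff.1 this
    refine tendsto_const_nhds.congr fun n => (sub_eq_zero.2 ?_).symm
    refine (e2 n k).trans ?_
    rw [e3 1 (by simpa using h), one_pow, one_smul]
    refine lp.ext (funext fun j => (adj hM _ _ _).trans ?_)
    simp [ee, Pi.single_apply]
  refine ⟨0, dens (T_le hM) fun k => ?_⟩
  have t0 : Tendsto (fun N : ℕ => ∫ t in E, GG (Real.exp (-1) + 2 * (1 / (N + 1))) (1 / (N + 1)) (x t)
      ∂μ) atTop (𝓝 (∫ _ in E, 0 ∂μ)) := by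
    refine tendsto_integral_of_dominated_convergence (fun _ => 1) (fun N => (iG _ _).1)
      (integrable_const _) (fun N => .of_forall fun t => by
        rw [Real.norm_of_nonneg (GG_nn _ _ _)]; exact GG_le _ _ _) ((ae_restrict_iff'₀ mE).2 ?_)
    filter_upwards [h, E1] with t a1 a2 a3
    obtain ⟨d, d1, hd⟩ := a1 (a2.1 a3)
    have b := ((tendsto_one_div_add_atTop_nhds_zero_nat.const_mul 2).const_add
      (Real.exp (-1))).eventually (gt_mem_nhds (show Real.exp (-1) + 2 * 0 < x t by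
        rw [x1 t d hd, mul_zero, add_zero]; exact Real.exp_lt_exp.2 (by linarith)))
    exact tendsto_const_nhds.congr' (b.mono fun N hN => (GG_zero (by positivity) hN.le).symm)
  rw [integral_zero] at t0
  refine NormedAddGroup.tendsto_nhds_zero.2 fun ε hε => ?_
  obtain ⟨N, hN⟩ := (t0.eventually (gt_mem_nhds (pow_pos hε 2))).exists
  have t1 : Tendsto (fun m : ℕ => Real.exp (-1 + k / m)) atTop (𝓝 (Real.exp (-1 + 0))) :=
    ((tendsto_const_div_atTop_nhds_zero_nat (k : ℝ)).const_add _).rexp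
  have t2 := (tendsto_add_atTop_nat k).eventually (((H _ (GG_cont _ _)).eventually (gt_mem_nhds hN)).and
    ((t1.eventually (gt_mem_nhds (show Real.exp (-1 + 0) < Real.exp (-1) + 1 / (N + 1) by
      rw [add_zero]; exact lt_add_of_pos_right _ (by positivity)))).and (eventually_gt_atTop 0)))
  filter_upwards [t2] with n ⟨a1, a2, a3⟩
  rw [← sq_lt_sq₀ (norm_nonneg _) hε.le, e2, adj_sq hM, add_comm k]
  refine lt_of_le_of_lt ?_ a1
  rw [← (GG_sum (w0 _) (ws _) _ _).sum_add_tsum_nat_add n]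
  refine le_add_of_nonneg_of_le (Finset.sum_nonneg fun j _ => mul_nonneg (w0 _ _) (GG_nn _ _ _))
    (le_of_eq (tsum_congr fun j => ?_))
  have b : Real.exp (-((j + n : ℕ) / (n + k : ℕ))) ≤ Real.exp (-1 + k / (n + k : ℕ)) := by
    rw [Real.exp_le_exp, neg_le, le_div_iff₀ (by positivity)]
    field_simp
    push_cast
    linarith [j.cast_nonneg (α := ℝ)]
  rw [GG_one (by positivity) (by linarith), mul_one]

end Pool.Agent.H.MP_a5725d_an
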