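import Pool.Agent.H.MP_a5725d_an.D

set_option autoImplicit false
namespace Pool.Agent.H.MP_a5725d_an
open MeasureTheory Metric Pool.Agent.H.MP_ceba03_an ComplexConjugate Filter Topology Set
open Pool.Agent.H.MP_e9aa5f_an Pool.Agent.H.MP_c4e2dd_an Pool.Agent.H.MP_535799_an Complex
open Pool.Agent.H.MP_496271_an

lemma ev_diff (a : H2) : DifferentiableOn ℂ (ev a) (ball 0 1) := by
  intro z hz
  obtain ⟨ρ, h1, h2⟩ := exists_between (mem_ball_zero_iff.1 hz)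
  exact ((differentiableOn_tsum_of_summable_norm (F := fun (n : ℕ) w => a n * w ^ n)
    ((summable_geometric_of_lt_one ((norm_nonneg z).trans h1.le) h2).mul_left ‖a‖)
    (fun n => by fun_prop) (isOpen_ball (x := 0) (ε := ρ)) fun n w hw => by
      rw [norm_mul, norm_pow]
      gcongr
      exacts [nb a n, (mem_ball_zero_iff.1 hw).le]).differentiableAt
    (isOpen_ball.mem_nhds (mem_ball_zero_iff.2 h1))).differentiableWithinAt

lemma ev_le (a : H2) {r : ℝ} (hr : r ∈ Ioo (0 : ℝ) 1) : ∫ t, ‖ev a (r * e t)‖ ^ 2 ∂μ ≤ ‖a‖ ^ 2 :=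
  hasSum_le (fun k => mul_le_of_le_one_right (by positivity) (pow_le_one₀ (pow_nonneg hr.1.le _)
    (pow_le_one₀ hr.1.le hr.2.le))) (par (nb a) hr) (nsq a)

lemma exb {F : ℂ → ℂ} (hF : DifferentiableOn ℂ F (ball 0 1)) {B : ℝ} (B0 : 0 ≤ B)
    (h : ∀ r ∈ Ioo (0 : ℝ) 1, ∫ t, ‖F (r * e t)‖ ^ 2 ∂μ ≤ B ^ 2) :
    ∃ b : H2, ‖b‖ ≤ B ∧ ∀ z : ℂ, ‖z‖ < 1 → ev b z = F z := by
  set a : ℕ → ℂ := fun k => (k.factorial : ℂ)⁻¹ * iteratedDeriv k F 0
  have h1 : ∀ z : ℂ, ‖z‖ < 1 → HasSum (fun k => a k * z ^ k) (F z) := fun z hz => by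
    simpa only [a, smul_eq_mul, sub_zero, mul_assoc, mul_comm (z ^ _)] using
      hasSum_taylorSeries_on_ball hF (mem_ball_zero_iff.2 hz)
  have h2 : ∀ s : Finset ℕ, ∑ k ∈ s, ‖a k‖ ^ (2 : ENNReal).toReal ≤ B ^ (2 : ENNReal).toReal := fun s => by
    have t := tendsto_finsetSum s fun k _ => ((tid.pow k).pow 2).const_mul (‖a k‖ ^ 2)
    simp only [one_pow, mul_one] at t
    simp only [ENNReal.toReal_ofNat, Real.rpow_ofNat]
    refine le_of_tendsto t (Eventually.mono (Ioo_mem_nhdsLT one_pos) fun r hr => ?_)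
    obtain ⟨ρ, r1, r2⟩ := exists_between hr.2
    have r0 := hr.1.trans r1
    obtain ⟨D, hD⟩ := (h1 ρ (by simpa [abs_of_pos r0])).summable.tendsto_atTop_zero.norm.bddAbove_range
    have p := par (a := fun k => a k * ρ ^ k) (fun k => hD ⟨k, rfl⟩) (r := r / ρ)
      ⟨div_pos hr.1 r0, (div_lt_one r0).2 r1⟩
    have r3 : (ρ : ℂ) ≠ 0 := ofReal_ne_zero.2 r0.ne'
    simp only [mul_assoc, ← mul_pow, ofReal_div, div_mul_eq_mul_div, mul_div_cancel₀ _ r3,
      (h1 _ ((rn hr _).trans_lt hr.2)).tsum_eq] at p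
    refine le_trans (le_of_eq (Finset.sum_congr rfl fun k _ => ?_))
      ((sum_le_hasSum s (fun _ _ => by positivity) p).trans (h r hr))
    rw [norm_mul (a k), norm_pow, norm_real, Real.norm_of_nonneg r0.le, mul_assoc, ← mul_pow ρ,
      mul_div_cancel₀ _ r0.ne', mul_pow]
  exact ⟨⟨a, memℓp_gen' h2⟩, lp.norm_le_of_forall_sum_le (by norm_num) B0 h2,
    fun z hz => (h1 z hz).tsum_eq⟩

lemma mk {u v : ℂ → ℂ} (hu : DifferentiableOn ℂ u (ball 0 1)) (hv : DifferentiableOn ℂ v (ball 0 1))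
    (hm : ∀ z : ℂ, ‖z‖ < 1 → ‖v z‖ < 1) {K : ℝ} (K0 : 0 ≤ K) (h : ∀ a : H2, ∀ r ∈ Ioo (0 : ℝ) 1,
      ∫ t, ‖u (r * e t) * ev a (v (r * e t))‖ ^ 2 ∂μ ≤ (K * ‖a‖) ^ 2) :
    ∃ C : H2 →L[ℂ] H2, ∀ a, ∀ z : ℂ, ‖z‖ < 1 → ev (C a) z = u z * ev a (v z) := by
  choose f f1 f2 using fun a : H2 => exb (F := fun z => u z * ev a (v z)) (hu.mul ((ev_diff a).comp hv
    fun z hz => mem_ball_zero_iff.2 (hm z (mem_ball_zero_iff.1 hz)))) (by positivity) (h a)
  have h1 : ∀ a b : H2, ∀ z : ℂ, ‖z‖ < 1 → ev (a + b) z = ev a z + ev b z := fun a b z hz => by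
    simp only [ev, lp.coeFn_add, Pi.add_apply, add_mul, (ev_sum a hz).tsum_add (ev_sum b hz)]
  have h2 : ∀ (c : ℂ) (a : H2) (z : ℂ), ev (c • a) z = c * ev a z := fun c a z => by
    simp only [ev, lp.coeFn_smul, Pi.smul_apply, smul_eq_mul, mul_assoc, tsum_mul_left]
  exact ⟨LinearMap.mkContinuous ⟨⟨f, fun a b => uq fun z hz => by
    rw [h1 _ _ z hz, f2 _ z hz, f2 _ z hz, f2 _ z hz, h1 _ _ _ (hm z hz), mul_add]⟩,
    fun c a => uq fun z hz => by
      simp only [RingHom.id_apply, h2, f2 _ z hz, mul_left_comm]⟩ K f1, f2⟩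

lemma exM : ∃ M : H2 →L[ℂ] H2, ∀ a, ∀ z : ℂ, ‖z‖ < 1 → ev (M a) z = z * ev a z :=
  mk differentiableOn_id differentiableOn_id (fun _ h => h) zero_le_one fun a r hr => by
    simp only [id, norm_mul, rn hr, mul_pow, integral_const_mul, one_mul]
    exact (mul_le_of_le_one_left (integral_nonneg fun _ => by positivity)
      (pow_le_one₀ hr.1.le hr.2.le)).trans (ev_le a hr)

lemma her2 {u : T → ℝ} (hu : Continuous u) : ∃ H : ℂ → ℂ, DifferentiableOn ℂ H (ball 0 1) ∧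
    ∀ z : ℂ, ‖z‖ < 1 → (H z).re = ∫ t, u t * PK z t ∂μ := by
  obtain ⟨_, h1⟩ := bd_cont (continuous_ofReal.comp hu)
  refine ⟨fun z => 2 * Pc (ofReal ∘ u) z - ∫ t, (u t : ℂ) ∂μ, ((pc_diff h1).const_mul _).sub_const _,
    fun z hz => ?_⟩
  obtain ⟨_, h2⟩ := bd_cont (kz_cont (mem_ball_zero_iff.2 hz))
  have h4 := (h1.mul h2).int.const_mul 2
  have h5 := integral_sub h4 h1.int
  rw [integral_const_mul] at h5
  have h6 := integral_re (h4.sub h1.int)
  simp only [Function.comp, Pi.sub_apply, RCLike.re_to_complex] at h5 h6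
  simp only [Pc, Function.comp, ← h5, ← h6, ← pk_re hz]
  congr 1; funext t
  rw [← re_ofReal_mul]
  congr 1
  ring

lemma exC {φ : ℂ → ℂ} (hd : DifferentiableOn ℂ φ (ball 0 1)) (hm : ∀ z : ℂ, ‖z‖ < 1 → ‖φ z‖ < 1) :
    ∃ C : H2 →L[ℂ] H2, ∀ a, ∀ z : ℂ, ‖z‖ < 1 → ev (C a) z = ev a (φ z) := by
  have p0 := sub_pos.2 (hm 0 (by simp))
  simpa using mk (u := fun _ => 1) (differentiableOn_const _) hd hm
    (Real.sqrt_nonneg (4 / (1 - ‖φ 0‖))) fun a r hr => by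
    obtain ⟨w, w1, w2⟩ := (isCompact_closedBall (0 : ℂ) 1).exists_isMaxOn ⟨0, by simp⟩
      (an_dil hd hr).2.continuousOn.norm
    obtain ⟨s, s1, s2⟩ := exists_between (max_lt (hm _ (mem_ball_zero_iff.1 ((an_dil hd hr).1 w w1)))
      (show (1 + ‖φ 0‖) / 2 < 1 by linarith))
    rw [max_lt_iff] at s1
    have s0 : 0 < s := (norm_nonneg _).trans_lt s1.1
    have hs : s ∈ Ioo (0 : ℝ) 1 := ⟨s0, s2⟩
    have a1 := (an_dil (ev_diff a) hs).2
    have c1 : Continuous fun t => ‖ev a (s * e t)‖ ^ 2 :=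
      (a1.co.comp_continuous e_cont e_mem).norm.pow 2
    obtain ⟨H, H1, H2⟩ := her2 c1
    have n1 : ∀ z ∈ closedBall (0 : ℂ) 1, ‖φ (r * z) / s‖ < 1 := fun z hz => by
      rw [norm_div, norm_real, Real.norm_of_nonneg s0.le, div_lt_one s0]
      exact lt_of_le_of_lt (w2 hz) s1.1
    have a2 : An fun z => H (φ (r * z) / s) := fun z hz =>
      (H1.analyticOnNhd isOpen_ball _ (mem_ball_zero_iff.2 (n1 z hz))).comp
        (f := fun z => φ (r * z) / s) (((an_dil hd hr).2 z hz).div_const)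
    obtain ⟨_, b1⟩ := hh_an a2
    have b2 := integral_re b1.1.int
    have n2 := n1 0 (by simp)
    rw [mv0 a2, RCLike.re_to_complex, H2 _ n2] at b2
    rw [mul_zero] at b2 n2
    simp only [one_mul, mul_pow, Real.sq_sqrt (show 0 ≤ 4 / (1 - ‖φ 0‖) by positivity)]
    refine (integral_mono_of_nonneg (.of_forall fun t => by positivity) b1.1.int.re
      (.of_forall fun t => ?_)).trans (b2.trans_le ((integral_mono_of_nonneg
        (.of_forall fun t => mul_nonneg (by positivity) (pk_nn n2 t))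
        ((cint' c1).const_mul (4 / (1 - ‖φ 0‖))) (.of_forall fun t => ?_)).trans ?_))
    · have n3 := n1 _ (sphere_subset_closedBall (e_mem t))
      obtain ⟨_, b3⟩ := hh_an (a1.pow 2)
      have b4 := pois b3 (mem_ball_zero_iff.2 n3)
      rw [pc_an (a1.pow 2) (mem_ball_zero_iff.2 n3)] at b4
      simp only [Pi.pow_apply, mul_div_cancel₀ _ (ofReal_ne_zero.2 s0.ne')] at b4
      simp only [RCLike.re_to_complex, H2 _ n3]
      rw [← norm_pow, ← b4]
      refine (norm_integral_le_integral_norm _).trans (le_of_eq ?_)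
      congr 1; funext τ
      rw [norm_mul, norm_pow, norm_real]
      exact congrArg _ (Real.norm_of_nonneg (pk_nn n3 τ))
    · beta_reduce
      rw [mul_comm]
      refine mul_le_mul_of_nonneg_right ?_ (by positivity)
      have b3 := norm_sub_norm_le (e t) (φ 0 / s)
      have b4 : ‖φ 0 / s‖ * s = ‖φ 0‖ := by
        rw [norm_div, norm_real, Real.norm_of_nonneg s0.le, div_mul_cancel₀ _ s0.ne']
      rw [e_norm] at b3
      have b5 := pow_le_pow_left₀ (sub_pos.2 n2).le b3 2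
      have b6 : 1 - ‖φ 0‖ ≤ 2 * (1 - ‖φ 0 / s‖) := by nlinarith
      rw [PK, div_le_div_iff₀ (pow_pos (norm_pos_iff.2 (e_ne n2 t)) 2) p0]
      nlinarith [mul_le_mul (show 1 - ‖φ 0 / s‖ ^ 2 ≤ 2 * (1 - ‖φ 0 / s‖) by nlinarith) b6 p0.le
        (by linarith)]
    · rw [integral_const_mul]
      exact mul_le_mul_of_nonneg_left (ev_le a hs) (by positivity)

end Pool.Agent.H.MP_a5725d_an
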